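import Mathlib

set_option autoImplicit false

namespace Pool.Agent.TH211.TP

open scoped TensorProduct

variable {R : Type*} [CommRing R] {M : Type*} [AddCommGroup M] [Module R M]

/-- The alternating map `(κ → M)^e → M^{⊗ e}` which uses the component `kk i` in slot `i`. -/
noncomputable def altMap {κ : Type*} {e : ℕ} (kk : Fin e → κ) :
    (κ → M) [⋀^Fin e]→ₗ[R] (⨂[R]^e M) :=
  MultilinearMap.alternatization
    ((PiTensorProduct.tprod R).compLinearMap
      (fun i => (LinearMap.proj (kk i) : (κ → M) →ₗ[R] M)))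

/-- The linear form on the tensor power attached to a family of linear maps into an algebra. -/
noncomputable def evalMap {Q : Type*} [CommRing Q] [Algebra R Q] {e : ℕ}
    (φ : Fin e → (M →ₗ[R] Q)) : (⨂[R]^e M) →ₗ[R] Q :=
  PiTensorProduct.lift ((MultilinearMap.mkPiAlgebra R (Fin e) Q).compLinearMap φ)

lemma evalMap_altMap {κ Q : Type*} [CommRing Q] [Algebra R Q] {e : ℕ}
    (φ : Fin e → (M →ₗ[R] Q)) (kk : Fin e → κ) (u : Fin e → κ → M) :
    evalMap φ (altMap kk u) = Matrix.det (Matrix.of fun a i => φ i (u a (kk i))) := by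
  unfold evalMap altMap
  rw [MultilinearMap.alternatization_apply, map_sum, Matrix.det_apply]
  refine Finset.sum_congr rfl (fun σ _ => ?_)
  have h : ∀ (z : ℤˣ) (y : ⨂[R]^e M) (f : (⨂[R]^e M) →ₗ[R] Q), f (z • y) = z • f y := by
    intro z y f
    rcases Int.units_eq_one_or z with rfl | rfl <;> simp
  rw [h]
  congr 1
  simp [MultilinearMap.domDomCongr_apply, MultilinearMap.compLinearMap_apply]

/-- Principle: a linearly dependent family of vectors in `κ → M` with a nonzero minor of
coordinates forces torsion in the tensor power. -/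
lemma torsion_ne_bot_of_minor [IsDomain R] {κ Q : Type*} [CommRing Q] [Algebra R Q] {e : ℕ}
    (φ : Fin e → (M →ₗ[R] Q)) (kk : Fin e → κ) (u : Fin e → κ → M)
    (hdep : ¬ LinearIndependent R u)
    (hdet : Matrix.det (Matrix.of fun a i => φ i (u a (kk i))) ≠ 0) :
    Submodule.torsion R (⨂[R]^e M) ≠ ⊥ := by
  intro h
  haveI : Module.IsTorsionFree R (⨂[R]^e M) :=
    (Submodule.isTorsionFree_iff_torsion_eq_bot).mpr h
  apply hdet
  rw [← evalMap_altMap, AlternatingMap.map_linearDependent _ _ hdep, map_zero]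

end Pool.Agent.TH211.TP
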