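import Mathlib

set_option autoImplicit false

namespace Pool.Agent.TH211.TP

open Finset

variable {R : Type*} [CommRing R] {M : Type*} [AddCommGroup M] [Module R M]

/-- A nonfree finite module over a local ring has a generating family all of whose relations
have coefficients in the maximal ideal, and which has a nontrivial relation. -/
lemma exists_minimal_generators [IsLocalRing R] [Module.Finite R M] (hM : ¬ Module.Free R M) :
    ∃ (n : ℕ) (m : Fin n → M), Submodule.span R (Set.range m) = ⊤ ∧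
      (∀ z : Fin n → R, ∑ i, z i • m i = 0 → ∀ i, z i ∈ IsLocalRing.maximalIdeal R) ∧
      (∃ z : Fin n → R, ∑ i, z i • m i = 0 ∧ ∃ i, z i ≠ 0) := by
  classical
  let P : ℕ → Prop := fun n => ∃ m : Fin n → M, Submodule.span R (Set.range m) = ⊤
  have hP : ∃ n, P n := Module.Finite.exists_fin
  obtain ⟨n, ⟨m, hm⟩, hmin⟩ : ∃ n, P n ∧ ∀ n' < n, ¬ P n' :=
    ⟨Nat.find hP, Nat.find_spec hP, fun n' hn' => Nat.find_min hP hn'⟩
  refine ⟨n, m, hm, ?_, ?_⟩
  · intro z hz i
    by_contra hi
    have hu : IsUnit (z i) := IsLocalRing.notMem_maximalIdeal.mp hi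
    cases n with
    | zero => exact Fin.elim0 i
    | succ n' =>
      refine hmin n' (Nat.lt_succ_self n') ⟨fun j => m (i.succAbove j), ?_⟩
      rw [eq_top_iff, ← hm, Submodule.span_le]
      rintro _ ⟨j, rfl⟩
      by_cases hj : j = i
      · subst hj
        rw [Fin.sum_univ_succAbove _ j] at hz
        obtain ⟨c, hc⟩ := hu.exists_left_inv
        have h1 : m j = - ∑ l, (c * z (j.succAbove l)) • m (j.succAbove l) := by
          have h2 : c • (z j • m j + ∑ l, z (j.succAbove l) • m (j.succAbove l)) = 0 := by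
            rw [hz, smul_zero]
          rw [smul_add, smul_smul, hc, one_smul, Finset.smul_sum] at h2
          rw [eq_neg_iff_add_eq_zero]
          simpa [smul_smul] using h2
        rw [h1]
        refine Submodule.neg_mem _ (Submodule.sum_mem _ fun l _ => Submodule.smul_mem _ _ ?_)
        exact Submodule.subset_span ⟨l, rfl⟩
      · obtain ⟨l, rfl⟩ := Fin.exists_succAbove_eq hj
        exact Submodule.subset_span ⟨l, rfl⟩
  · by_contra h
    push Not at h
    apply hM
    have hli : LinearIndependent R m := Fintype.linearIndependent_iff.mpr h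
    exact Module.Free.of_basis (Module.Basis.mk hli hm.ge)

/-- The ideal generated by all coefficients of all relations. -/
def relIdeal {n : ℕ} (m : Fin n → M) : Ideal R :=
  Ideal.span {a | ∃ z : Fin n → R, ∑ i, z i • m i = 0 ∧ ∃ i, z i = a}

/-- Coordinates modulo the ideal of relation coefficients. -/
lemma exists_coord {n : ℕ} (m : Fin n → M) (hm : Submodule.span R (Set.range m) = ⊤) :
    ∃ φ : Fin n → (M →ₗ[R] R ⧸ relIdeal (R := R) m), ∀ (z : Fin n → R) (i : Fin n),
      φ i (∑ j, z j • m j) = Ideal.Quotient.mk _ (z i) := by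
  classical
  let L : (Fin n → R) →ₗ[R] M := Fintype.linearCombination R m
  have hL : Function.Surjective L := by
    rw [← LinearMap.range_eq_top, Fintype.range_linearCombination, hm]
  have key : ∀ i : Fin n, LinearMap.ker L ≤
      LinearMap.ker ((Submodule.mkQ (relIdeal (R := R) m)) ∘ₗ (LinearMap.proj i)) := by
    intro i z hz
    rw [LinearMap.mem_ker] at hz ⊢
    rw [LinearMap.comp_apply, Submodule.mkQ_apply, Submodule.Quotient.mk_eq_zero]
    exact Submodule.subset_span ⟨z, hz, i, rfl⟩
  refine ⟨fun i => ((LinearMap.ker L).liftQ _ (key i)) ∘ₗ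
    (L.quotKerEquivOfSurjective hL).symm.toLinearMap, ?_⟩
  intro z i
  have h1 : ∑ j, z j • m j = L z := rfl
  rw [h1]
  have h2 : (L.quotKerEquivOfSurjective hL).symm (L z) = (LinearMap.ker L).mkQ z := by
    rw [LinearEquiv.symm_apply_eq]; rfl
  simp only [LinearMap.comp_apply, LinearEquiv.coe_coe, h2, Submodule.mkQ_apply,
    Submodule.liftQ_apply]
  rfl

/-- Selecting few generators modulo `x` from a finite family over a local ring. -/
lemma exists_small_subset [IsLocalRing R] {Λ : Type*} [Fintype Λ] [DecidableEq Λ]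
    (y : Λ → R) (x : R) (s : Finset R) (hs : (↑s : Set R) ⊆ Ideal.span (Set.range y))
    (hs' : Ideal.span (Set.range y) ≤ Ideal.span (↑s : Set R) ⊔ Ideal.span {x}) :
    ∃ T : Finset Λ, T.card ≤ s.card ∧
      ∀ l, y l ∈ Ideal.span (y '' (↑T : Set Λ)) ⊔ Ideal.span {x} := by
  classical
  set Q : Finset Λ → Prop := fun T => ∀ l, y l ∈ Ideal.span (y '' (↑T : Set Λ)) ⊔ Ideal.span {x}
    with hQ
  have huniv : Q Finset.univ := by
    intro l
    refine Submodule.mem_sup_left (Submodule.subset_span ⟨l, by simp, rfl⟩)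
  obtain ⟨T, hT, hmin⟩ := Finset.exists_min_image (Finset.univ.filter Q) Finset.card
    ⟨Finset.univ, by simpa using huniv⟩
  have hTQ : Q T := (Finset.mem_filter.mp hT).2
  refine ⟨T, ?_, hTQ⟩
  -- matrices
  have hA : ∀ t : Λ, ∃ c : R → R, y t - ∑ u ∈ s, c u * u ∈ Ideal.span {x} := by
    intro t
    have h1 : y t ∈ Ideal.span (↑s : Set R) ⊔ Ideal.span {x} :=
      hs' (Submodule.subset_span ⟨t, rfl⟩)
    obtain ⟨p, hp, q, hq, hpq⟩ := Submodule.mem_sup.mp h1
    have hp' : p ∈ Submodule.span R (id '' (↑s : Set R)) := by simpa using hp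
    rw [Submodule.mem_span_image_finset_iff_exists_fun'] at hp'
    obtain ⟨c, hc⟩ := hp'
    refine ⟨c, ?_⟩
    have : y t - ∑ u ∈ s, c u * u = q := by
      rw [← hpq]
      have : p = ∑ u ∈ s, c u * u := by rw [← hc]; simp
      rw [this]; ring
    rw [this]; exact hq
  have hB : ∀ u ∈ s, ∃ c : Λ → R, u - ∑ t ∈ T, c t * y t ∈ Ideal.span {x} := by
    intro u hu
    have h1 : u ∈ Ideal.span (y '' (↑T : Set Λ)) ⊔ Ideal.span {x} := by
      have h2 : Ideal.span (Set.range y) ≤ Ideal.span (y '' (↑T : Set Λ)) ⊔ Ideal.span {x} := by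
        rw [Ideal.span_le]
        rintro _ ⟨l, rfl⟩
        exact hTQ l
      exact h2 (hs hu)
    obtain ⟨p, hp, q, hq, hpq⟩ := Submodule.mem_sup.mp h1
    have hp' : p ∈ Submodule.span R (y '' (↑T : Set Λ)) := hp
    rw [Submodule.mem_span_image_finset_iff_exists_fun'] at hp'
    obtain ⟨c, hc⟩ := hp'
    refine ⟨c, ?_⟩
    have : u - ∑ t ∈ T, c t * y t = q := by
      rw [← hpq]
      have : p = ∑ t ∈ T, c t * y t := by rw [← hc]; simp
      rw [this]; ring
    rw [this]; exact hq
  choose a ha using hA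
  choose! c hc using hB
  let A : Matrix T s R := Matrix.of fun t u => a t u
  let B : Matrix s T R := Matrix.of fun u t => c u t
  have hrel : ∀ t ∈ T, y t - ∑ t' ∈ T, (∑ u ∈ s, a t u * c u t') * y t' ∈ Ideal.span {x} := by
    intro t _
    have h1 := ha t
    have h2 : ∑ u ∈ s, a t u * (u - ∑ t' ∈ T, c u t' * y t') ∈ Ideal.span {x} :=
      Submodule.sum_mem _ fun u hu => Ideal.mul_mem_left _ _ (hc u hu)
    have h3 := Submodule.add_mem _ h1 h2
    have h4 : y t - ∑ u ∈ s, a t u * u + ∑ u ∈ s, a t u * (u - ∑ t' ∈ T, c u t' * y t')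
        = y t - ∑ t' ∈ T, (∑ u ∈ s, a t u * c u t') * y t' := by
      have h5 : ∑ t' ∈ T, (∑ u ∈ s, a t u * c u t') * y t'
          = ∑ u ∈ s, a t u * ∑ t' ∈ T, c u t' * y t' := by
        simp only [Finset.sum_mul, Finset.mul_sum]
        rw [Finset.sum_comm]
        refine Finset.sum_congr rfl fun u _ => Finset.sum_congr rfl fun t' _ => by ring
      rw [h5]
      simp only [mul_sub, Finset.sum_sub_distrib]
      ring
    rwa [h4] at h3
  have hunit : ∀ t ∈ T, ∀ t₀ ∈ T,
      ((if t = t₀ then (1 : R) else 0) - ∑ u ∈ s, a t u * c u t₀) ∈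
        IsLocalRing.maximalIdeal R := by
    intro t ht t₀ ht₀
    by_contra hcon
    have hu := IsLocalRing.notMem_maximalIdeal.mp hcon
    set w : R := (if t = t₀ then (1 : R) else 0) - ∑ u ∈ s, a t u * c u t₀ with hw
    have h1 := hrel t ht
    -- isolate t₀
    have h2 : w * y t₀ + ∑ t' ∈ T.erase t₀,
        ((if t = t' then (1 : R) else 0) - ∑ u ∈ s, a t u * c u t') * y t' ∈ Ideal.span {x} := by
      have h3 : y t - ∑ t' ∈ T, (∑ u ∈ s, a t u * c u t') * y t' =
          ∑ t' ∈ T, ((if t = t' then (1 : R) else 0) - ∑ u ∈ s, a t u * c u t') * y t' := by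
        simp only [sub_mul, Finset.sum_sub_distrib, ite_mul, one_mul, zero_mul]
        rw [Finset.sum_ite_eq, if_pos ht]
      rw [h3, ← Finset.add_sum_erase _ _ ht₀] at h1
      exact h1
    obtain ⟨v, hv⟩ := hu.exists_left_inv
    have h4 : y t₀ ∈ Ideal.span (y '' (↑(T.erase t₀) : Set Λ)) ⊔ Ideal.span {x} := by
      have h5 : ∑ t' ∈ T.erase t₀,
          ((if t = t' then (1 : R) else 0) - ∑ u ∈ s, a t u * c u t') * y t' ∈
            Ideal.span (y '' (↑(T.erase t₀) : Set Λ)) :=
        Submodule.sum_mem _ fun t' ht' =>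
          Ideal.mul_mem_left _ _ (Submodule.subset_span ⟨t', ht', rfl⟩)
      have h6 : y t₀ = v * (w * y t₀ + ∑ t' ∈ T.erase t₀,
        ((if t = t' then (1 : R) else 0) - ∑ u ∈ s, a t u * c u t') * y t')
          - v * ∑ t' ∈ T.erase t₀,
        ((if t = t' then (1 : R) else 0) - ∑ u ∈ s, a t u * c u t') * y t' := by
        rw [mul_add, ← mul_assoc, hv]; ring
      rw [h6]
      refine Submodule.sub_mem _ (Submodule.mem_sup_right (Ideal.mul_mem_left _ _ h2))
        (Submodule.mem_sup_left (Ideal.mul_mem_left _ _ h5))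
    have h7 : Q (T.erase t₀) := by
      intro l
      have h8 : Ideal.span (y '' (↑T : Set Λ)) ⊔ Ideal.span {x} ≤
          Ideal.span (y '' (↑(T.erase t₀) : Set Λ)) ⊔ Ideal.span {x} := by
        refine sup_le ?_ le_sup_right
        rw [Ideal.span_le]
        rintro _ ⟨t', ht', rfl⟩
        by_cases h9 : t' = t₀
        · subst h9; exact h4
        · refine Submodule.mem_sup_left (Submodule.subset_span ⟨t', ?_, rfl⟩)
          simpa [h9] using ht'
      exact h8 (hTQ l)
    have h10 := hmin (T.erase t₀) (by simpa using h7)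
    have h11 := Finset.card_erase_lt_of_mem ht₀
    omega
  -- rank argument
  let k := IsLocalRing.ResidueField R
  let r : R →+* k := IsLocalRing.residue R
  have hAB : (A.map r) * (B.map r) = (1 : Matrix T T k) := by
    ext t t₀
    have h1 := hunit t t.2 t₀ t₀.2
    have h2 : r ((if (t : Λ) = t₀ then (1 : R) else 0) - ∑ u ∈ s, a t u * c u t₀) = 0 :=
      (IsLocalRing.residue_eq_zero_iff _).mpr h1
    rw [map_sub, sub_eq_zero] at h2
    rw [Matrix.mul_apply]
    simp only [Matrix.map_apply]
    have h3 : ∑ j : s, r (A t j) * r (B j t₀) = r (∑ u ∈ s, a t u * c u t₀) := by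
      rw [map_sum, ← Finset.sum_coe_sort s]
      refine Finset.sum_congr rfl fun u _ => ?_
      rw [map_mul]; rfl
    rw [h3, ← h2, Matrix.one_apply]
    by_cases h4 : t = t₀
    · simp [h4]
    · have : (t : Λ) ≠ t₀ := fun h => h4 (Subtype.ext h)
      simp [h4, this]
  have h1 : (1 : Matrix T T k).rank ≤ Fintype.card s := by
    rw [← hAB]
    exact (Matrix.rank_mul_le_left _ _).trans (Matrix.rank_le_card_width _)
  rw [Matrix.rank_one] at h1
  simpa using h1

end Pool.Agent.TH211.TP
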