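import Mathlib
import Pool.Agent.TH211.TP.Eval
import Pool.Agent.TH211.TP.Gens

set_option autoImplicit false

namespace Pool.Agent.TH211.TP

open scoped TensorProduct

/-- Determinant of a matrix that is triangular for a grading by natural numbers and diagonal
inside each degree. -/
lemma det_of_graded {ι Q : Type*} [Fintype ι] [DecidableEq ι] [CommRing Q]
    (b : ι → ℕ) (N : Matrix ι ι Q) (h : ∀ s l, b l ≤ b s → s ≠ l → N s l = 0) :
    N.det = ∏ s, N s s := by
  classical
  let idx := Fintype.equivFin ι
  let C := Fintype.card ι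
  let f : ι → ℕ := fun s => b s * C + (idx s : ℕ)
  have hlt : ∀ s : ι, (idx s : ℕ) < C := fun s => (idx s).2
  have hb : ∀ s l, b l < b s → f l < f s := by
    intro s l hsl
    have h1 := hlt l
    have h2 : (b l + 1) * C ≤ b s * C := Nat.mul_le_mul_right _ hsl
    have h3 : (b l + 1) * C = b l * C + C := by ring
    show b l * C + (idx l : ℕ) < b s * C + (idx s : ℕ)
    omega
  have hf : Function.Injective f := by
    intro s l hsl
    rcases lt_trichotomy (b s) (b l) with h1 | h1 | h1
    · exact absurd hsl (hb l s h1).ne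
    · have h2 : b s * C + (idx s : ℕ) = b l * C + (idx l : ℕ) := hsl
      rw [h1] at h2
      have h3 : (idx s : ℕ) = (idx l : ℕ) := by omega
      exact idx.injective (Fin.ext h3)
    · exact absurd hsl.symm (hb s l h1).ne
  let _ : LinearOrder ι := LinearOrder.lift' f hf
  refine Matrix.det_of_isUpperTriangular ?_
  intro i j hij
  have hij' : f j < f i := hij
  refine h i j ?_ ?_
  · by_contra hcon
    push Not at hcon
    have := hb j i hcon
    omega
  · rintro rfl
    exact lt_irrefl _ hij'

section

variable {R : Type*} [CommRing R] {M : Type*} [AddCommGroup M] [Module R M]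

lemma torsion_of_family [IsDomain R] {n : ℕ} (m : Fin n → M)
    (hm : Submodule.span R (Set.range m) = ⊤) {κ : Type*} [Fintype κ] [DecidableEq κ] (e : ℕ)
    (S : Finset (Fin n × κ)) (hS : S.card = e)
    (u : Fin n × κ → (Fin n × κ → R)) (g : Fin n × κ → R) (hg : ∃ s ∈ S, g s ≠ 0)
    (hsum : ∀ k, ∑ s ∈ S, g s • (∑ i, u s (i, k) • m i) = 0)
    (hdet : Matrix.det (Matrix.of fun (s l : S) => u s l) ∉ relIdeal (R := R) m) :
    Submodule.torsion R (⨂[R]^e M) ≠ ⊥ := by
  classical
  obtain ⟨φ, hφ⟩ := exists_coord (R := R) m hm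
  let σ : Fin e ≃ S := (S.equivFinOfCardEq hS).symm
  let U : Fin e → κ → M := fun a k => ∑ i, u (σ a) (i, k) • m i
  refine torsion_ne_bot_of_minor (Q := R ⧸ relIdeal (R := R) m)
    (fun i => φ (σ i).1.1) (fun i => (σ i).1.2) U ?_ ?_
  · rw [Fintype.not_linearIndependent_iff]
    obtain ⟨s, hs, hgs⟩ := hg
    refine ⟨fun a => g (σ a), ?_, σ.symm ⟨s, hs⟩, by simpa using hgs⟩
    ext k
    simp only [Finset.sum_apply, Pi.smul_apply, Pi.zero_apply]
    have h1 : ∑ a, g (σ a) • U a k = ∑ s : S, g s • (∑ i, u s (i, k) • m i) :=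
      Equiv.sum_comp σ (fun s : S => g s • (∑ i, u s (i, k) • m i))
    rw [h1, Finset.sum_coe_sort S (fun s => g s • (∑ i, u s (i, k) • m i))]
    exact hsum k
  · have h1 : (Matrix.of fun a i => φ (σ i).1.1 (U a (σ i).1.2)) =
        ((Matrix.of fun (s l : S) => u s l).map
          (Ideal.Quotient.mk (relIdeal (R := R) m))).submatrix σ σ := by
      ext a i
      simp only [Matrix.of_apply, Matrix.submatrix_apply, Matrix.map_apply]
      exact hφ (fun j => u (σ a) (j, (σ i).1.2)) (σ i).1.1
    rw [h1, Matrix.det_submatrix_equiv_self]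
    have h2 := RingHom.map_det (Ideal.Quotient.mk (relIdeal (R := R) m))
      (Matrix.of fun (s l : S) => u s l)
    rw [RingHom.mapMatrix_apply] at h2
    rw [← h2]
    intro h3
    exact hdet (Ideal.Quotient.eq_zero_iff_mem.mp h3)

/-- The main torsion theorem: if `x` lies in the maximal ideal and all ideals are generated
modulo `x` by at most `b` elements, then the tensor powers of exponent at least `b + 1` (at least
`b` if `x = 0`) of a nonfree finite module have nonzero torsion. -/
theorem core [IsDomain R] [IsLocalRing R] [IsNoetherianRing R] (x : R)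
    (hx : x ∈ IsLocalRing.maximalIdeal R) (b e : ℕ)
    (hb : ∀ J : Ideal R, ∃ s : Finset R, s.card ≤ b ∧ (↑s : Set R) ⊆ J ∧
      J ≤ Ideal.span (↑s : Set R) ⊔ Ideal.span {x})
    (he : b + 1 ≤ e ∨ (x = 0 ∧ b ≤ e)) [Module.Finite R M] (hM : ¬ Module.Free R M) :
    Submodule.torsion R (⨂[R]^e M) ≠ ⊥ := by
  classical
  obtain ⟨n, m, hm, hmin, hrel⟩ := exists_minimal_generators (R := R) hM
  have hn : 0 < n := by
    obtain ⟨_, _, i, _⟩ := hrel
    exact i.pos
  set I : Ideal R := relIdeal (R := R) m with hI
  have hIm : I ≤ IsLocalRing.maximalIdeal R := by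
    rw [hI, relIdeal, Ideal.span_le]
    rintro _ ⟨z, hz, i, rfl⟩
    exact hmin z hz i
  have h1I : (1 : R) ∉ I := fun h =>
    (IsLocalRing.maximalIdeal.isMaximal R).ne_top ((Ideal.eq_top_iff_one _).mpr (hIm h))
  have hfg : (Submodule.span R
      {a : R | ∃ z : Fin n → R, ∑ i, z i • m i = 0 ∧ ∃ i, z i = a}).FG :=
    IsNoetherian.noetherian (R := R) (M := R) _
  obtain ⟨s', hs's, hs'span⟩ := (Submodule.fg_span_iff_fg_span_finset_subset _).mp hfg
  have hch : ∀ a ∈ s', ∃ z : Fin n → R, ∑ i, z i • m i = 0 ∧ ∃ i, z i = a :=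
    fun a ha => hs's ha
  choose! zz hzz hzi using hch
  let κ := ↥s' ⊕ Fin e
  let rel : κ → (Fin n → R) := Sum.elim (fun a => zz a) (fun _ => 0)
  have hrelκ : ∀ k, ∑ i, rel k i • m i = 0 := by
    rintro (a | j)
    · exact hzz a a.2
    · simp [rel]
  let y : Fin n × κ → R := fun p => rel p.2 p.1
  have hyspan : Ideal.span (Set.range y) = I := by
    apply le_antisymm
    · rw [Ideal.span_le]
      rintro _ ⟨⟨i, k⟩, rfl⟩
      exact Submodule.subset_span ⟨rel k, hrelκ k, i, rfl⟩
    · have h1 : I = Submodule.span R (↑s' : Set R) := hs'span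
      rw [h1, Submodule.span_le]
      intro a ha
      obtain ⟨i, hi⟩ := hzi a ha
      exact Submodule.subset_span ⟨(i, Sum.inl ⟨a, ha⟩), hi⟩
  have hyI : ∀ l, y l ∈ I := fun l => hyspan ▸ Submodule.subset_span ⟨l, rfl⟩
  have hI0 : ∃ l, y l ≠ 0 := by
    by_contra hcon
    push Not at hcon
    obtain ⟨z, hz, i, hzi⟩ := hrel
    have h1 : z i ∈ I := Submodule.subset_span ⟨z, hz, i, rfl⟩
    rw [← hyspan] at h1
    have h2 : Ideal.span (Set.range y) ≤ ⊥ := by
      rw [Ideal.span_le]
      rintro _ ⟨l, rfl⟩
      exact hcon l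
    exact hzi (h2 h1)
  obtain ⟨s, hscard, hsJ, hJs⟩ := hb I
  obtain ⟨T, hTcard, hT⟩ := exists_small_subset y x s (by rw [hyspan]; exact hsJ)
    (by rw [hyspan]; exact hJs)
  have hTb : T.card ≤ b := hTcard.trans hscard
  have hcardΛ : e ≤ Fintype.card (Fin n × κ) := by
    rw [Fintype.card_prod, Fintype.card_fin, Fintype.card_sum, Fintype.card_fin]
    calc e ≤ Fintype.card ↥s' + e := Nat.le_add_left _ _
      _ = 1 * (Fintype.card ↥s' + e) := (one_mul _).symm
      _ ≤ n * (Fintype.card ↥s' + e) := Nat.mul_le_mul_right _ hn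
  -- representation of the coordinates
  have hrep : ∀ l, ∃ (c : Fin n × κ → R) (y' : R), y l = ∑ t ∈ T, c t * y t + x * y' := by
    intro l
    obtain ⟨p, hp, q, hq, hpq⟩ := Submodule.mem_sup.mp (hT l)
    have hp' : p ∈ Submodule.span R (y '' (↑T : Set (Fin n × κ))) := hp
    rw [Submodule.mem_span_image_finset_iff_exists_fun'] at hp'
    obtain ⟨c, hc⟩ := hp'
    obtain ⟨y', hy'⟩ := Ideal.mem_span_singleton'.mp hq
    refine ⟨c, y', ?_⟩
    rw [← hpq, ← hc, ← hy', mul_comm x y']
    simp
  choose c y' hcy using hrep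
  -- sum over the components
  have hcomp : ∀ (v : Fin n × κ → R), (∀ l, v l = y l) → ∀ k, ∑ i, v (i, k) • m i = 0 := by
    intro v hv k
    rw [← hrelκ k]
    exact Finset.sum_congr rfl fun i _ => by rw [hv]
  by_cases hcase : (∃ l ∉ T, y' l ∉ I) ∧ x ≠ 0
  · -- first case
    obtain ⟨⟨l₀, hl₀T, hl₀I⟩, hx0⟩ := hcase
    have he' : T.card + 1 ≤ e := by
      rcases he with he | ⟨he, _⟩
      · omega
      · exact absurd he hx0
    obtain ⟨S, hTS, hScard⟩ : ∃ S : Finset (Fin n × κ), insert l₀ T ⊆ S ∧ S.card = e := by
      have h1 : (insert l₀ T).card ≤ e := by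
        rw [Finset.card_insert_of_notMem hl₀T]; exact he'
      obtain ⟨S, h2, _, h3⟩ := Finset.exists_subsuperset_card_eq
        (Finset.subset_univ (insert l₀ T)) h1 (by rw [Finset.card_univ]; exact hcardΛ)
      exact ⟨S, h2, h3⟩
    let u : Fin n × κ → (Fin n × κ → R) := fun s l =>
      if s ∈ T then (if l ∈ T then (if s = l then 1 else 0) else c l s)
      else if s = l₀ then (if l ∈ T then 0 else y' l)
      else (if s = l then 1 else 0)
    let g : Fin n × κ → R := fun s => if s ∈ T then y s else if s = l₀ then x else 0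
    have hT_S : T ⊆ S := (Finset.subset_insert _ _).trans hTS
    have hl₀S : l₀ ∈ S := hTS (Finset.mem_insert_self _ _)
    refine torsion_of_family m hm e S hScard u g ⟨l₀, hl₀S, ?_⟩ ?_ ?_
    · simp only [g, if_neg hl₀T]; exact hx0
    · intro k
      have hv : ∀ l, ∑ s ∈ S, g s * u s l = y l := by
        intro l
        have h1 : ∑ s ∈ S, g s * u s l = ∑ s ∈ insert l₀ T, g s * u s l := by
          refine (Finset.sum_subset hTS ?_).symm
          intro s _ hs
          rw [Finset.mem_insert, not_or] at hs
          simp only [g, if_neg hs.1, if_neg hs.2, zero_mul]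
        rw [h1, Finset.sum_insert hl₀T]
        have h2 : g l₀ * u l₀ l = x * (if l ∈ T then 0 else y' l) := by
          simp only [g, u, if_neg hl₀T, if_true]
        have h3 : ∑ s ∈ T, g s * u s l =
            ∑ s ∈ T, y s * (if l ∈ T then (if s = l then 1 else 0) else c l s) := by
          refine Finset.sum_congr rfl fun s hs => ?_
          simp only [g, u, if_pos hs]
        rw [h2, h3]
        by_cases hl : l ∈ T
        · simp only [if_pos hl, mul_ite, mul_one, mul_zero]
          rw [Finset.sum_eq_single l (fun s _ hs => if_neg hs) (fun h => absurd hl h)]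
          simp
        · simp only [if_neg hl]
          rw [hcy l, add_comm]
          congr 1
          exact Finset.sum_congr rfl fun s _ => mul_comm _ _
      have h4 : ∑ s ∈ S, g s • (∑ i, u s (i, k) • m i)
          = ∑ i, (∑ s ∈ S, g s * u s (i, k)) • m i := by
        simp only [Finset.smul_sum, Finset.sum_smul, smul_smul]
        rw [Finset.sum_comm]
      rw [h4]
      exact hcomp (fun l => ∑ s ∈ S, g s * u s l) hv k
    · have hdet : Matrix.det (Matrix.of fun (s l : S) => u s l) = y' l₀ := by
        rw [det_of_graded (fun s : S => if (s : Fin n × κ) ∈ T then 0 else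
          if (s : Fin n × κ) = l₀ then 1 else 2)]
        · simp only [Matrix.of_apply]
          rw [Finset.prod_eq_single (⟨l₀, hl₀S⟩ : S)]
          · simp only [u, if_neg hl₀T, if_true]
          · rintro ⟨s, hs⟩ _ hs'
            have hs'' : s ≠ l₀ := fun h => hs' (Subtype.ext h)
            by_cases h1 : s ∈ T
            · simp [u, h1]
            · simp [u, h1, hs'']
          · intro h; exact absurd (Finset.mem_univ _) h
        · rintro ⟨s, hs⟩ ⟨l, hl⟩ hle hne
          have hne' : s ≠ l := fun h => hne (Subtype.ext h)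
          simp only [Matrix.of_apply]
          simp only at hle
          by_cases h1 : s ∈ T
          · by_cases h2 : l ∈ T
            · simp [u, h1, h2, hne']
            · exfalso
              rw [if_pos h1, if_neg h2] at hle
              split_ifs at hle <;> omega
          · by_cases h3 : s = l₀
            · by_cases h2 : l ∈ T
              · simp only [u, if_neg h1, if_pos h3, if_pos h2]
              · exfalso
                have h4 : l ≠ l₀ := fun h => hne' (h3.trans h.symm)
                rw [if_neg h1, if_pos h3, if_neg h2, if_neg h4] at hle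
                omega
            · simp only [u, if_neg h1, if_neg h3, if_neg hne']
      rw [hdet]
      exact hl₀I
  · -- second case: the ideal is generated by the elements indexed by `T`
    have hgen : ∀ l, y l ∈ Ideal.span (y '' (↑T : Set (Fin n × κ))) := by
      have h1 : I ≤ Ideal.span (y '' (↑T : Set (Fin n × κ))) ⊔ Ideal.span {x} • I := by
        conv_lhs => rw [← hyspan]
        rw [Ideal.span_le]
        rintro _ ⟨l, rfl⟩
        by_cases hl : l ∈ T
        · exact Submodule.mem_sup_left (Submodule.subset_span ⟨l, hl, rfl⟩)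
        · rw [hcy l]
          refine Submodule.add_mem _ (Submodule.mem_sup_left ?_) (Submodule.mem_sup_right ?_)
          · exact Submodule.sum_mem _ fun t ht =>
              Ideal.mul_mem_left _ _ (Submodule.subset_span ⟨t, ht, rfl⟩)
          · by_cases hx0 : x = 0
            · rw [hx0, zero_mul]; exact Submodule.zero_mem _
            · have hy'I : y' l ∈ I := by
                by_contra hcon
                exact hcase ⟨⟨l, hl, hcon⟩, hx0⟩
              exact Ideal.mul_mem_mul (Ideal.mem_span_singleton_self x) hy'I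
      have h2 : I ≤ Ideal.span (y '' (↑T : Set (Fin n × κ))) := by
        refine Submodule.le_of_le_smul_of_le_jacobson_bot (I := Ideal.span {x})
          (IsNoetherian.noetherian I) ?_ h1
        rw [IsLocalRing.jacobson_eq_maximalIdeal ⊥ bot_ne_top, Ideal.span_le]
        intro z hz
        rw [Set.mem_singleton_iff] at hz
        rw [hz]; exact hx
      exact fun l => h2 (hyI l)
    have hrep2 : ∀ l, ∃ (d : Fin n × κ → R), y l = ∑ t ∈ T, d t * y t := by
      intro l
      have hp' : y l ∈ Submodule.span R (y '' (↑T : Set (Fin n × κ))) := hgen l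
      rw [Submodule.mem_span_image_finset_iff_exists_fun'] at hp'
      obtain ⟨d, hd⟩ := hp'
      exact ⟨d, by rw [← hd]; simp⟩
    choose d hd using hrep2
    have hTne : ∃ t ∈ T, y t ≠ 0 := by
      by_contra hcon
      push Not at hcon
      obtain ⟨l, hl⟩ := hI0
      apply hl
      rw [hd l]
      exact Finset.sum_eq_zero fun t ht => by rw [hcon t ht, mul_zero]
    have he' : T.card ≤ e := by
      rcases he with he | ⟨_, he⟩ <;> omega
    obtain ⟨S, hTS, hScard⟩ : ∃ S : Finset (Fin n × κ), T ⊆ S ∧ S.card = e := by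
      obtain ⟨S, h2, _, h3⟩ := Finset.exists_subsuperset_card_eq
        (Finset.subset_univ T) he' (by rw [Finset.card_univ]; exact hcardΛ)
      exact ⟨S, h2, h3⟩
    let u : Fin n × κ → (Fin n × κ → R) := fun s l =>
      if s ∈ T then (if l ∈ T then (if s = l then 1 else 0) else d l s)
      else (if s = l then 1 else 0)
    let g : Fin n × κ → R := fun s => if s ∈ T then y s else 0
    obtain ⟨t₀, ht₀T, ht₀⟩ := hTne
    refine torsion_of_family m hm e S hScard u g ⟨t₀, hTS ht₀T, ?_⟩ ?_ ?_
    · simp only [g, if_pos ht₀T]; exact ht₀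
    · intro k
      have hv : ∀ l, ∑ s ∈ S, g s * u s l = y l := by
        intro l
        have h1 : ∑ s ∈ S, g s * u s l = ∑ s ∈ T, g s * u s l := by
          refine (Finset.sum_subset hTS ?_).symm
          intro s _ hs
          simp only [g, if_neg hs, zero_mul]
        have h3 : ∑ s ∈ T, g s * u s l =
            ∑ s ∈ T, y s * (if l ∈ T then (if s = l then 1 else 0) else d l s) := by
          refine Finset.sum_congr rfl fun s hs => ?_
          simp only [g, u, if_pos hs]
        rw [h1, h3]
        by_cases hl : l ∈ T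
        · simp only [if_pos hl, mul_ite, mul_one, mul_zero]
          rw [Finset.sum_eq_single l (fun s _ hs => if_neg hs) (fun h => absurd hl h)]
          simp
        · simp only [if_neg hl]
          conv_rhs => rw [hd l]
          exact Finset.sum_congr rfl fun s _ => mul_comm _ _
      have h4 : ∑ s ∈ S, g s • (∑ i, u s (i, k) • m i)
          = ∑ i, (∑ s ∈ S, g s * u s (i, k)) • m i := by
        simp only [Finset.smul_sum, Finset.sum_smul, smul_smul]
        rw [Finset.sum_comm]
      rw [h4]
      exact hcomp (fun l => ∑ s ∈ S, g s * u s l) hv k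
    · have hdet : Matrix.det (Matrix.of fun (s l : S) => u s l) = 1 := by
        rw [det_of_graded (fun s : S => if (s : Fin n × κ) ∈ T then 0 else 1)]
        · simp only [Matrix.of_apply]
          refine Finset.prod_eq_one ?_
          rintro ⟨s, hs⟩ _
          by_cases h1 : s ∈ T
          · simp [u, h1]
          · simp [u, h1]
        · rintro ⟨s, hs⟩ ⟨l, hl⟩ hle hne
          have hne' : s ≠ l := fun h => hne (Subtype.ext h)
          simp only [Matrix.of_apply]
          simp only at hle
          by_cases h1 : s ∈ T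
          · by_cases h2 : l ∈ T
            · simp [u, h1, h2, hne']
            · exfalso
              rw [if_pos h1, if_neg h2] at hle
              omega
          · simp only [u, if_neg h1, if_neg hne']
      rw [hdet]
      exact h1I

end

end Pool.Agent.TH211.TP
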