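import Mathlib

set_option autoImplicit false

namespace Pool.Agent.TH211.TP

open Module

variable {R : Type*} [CommRing R]

section Basic

variable {A B C : Type*} [AddCommGroup A] [Module R A] [AddCommGroup B] [Module R B]
  [AddCommGroup C] [Module R C]

lemma length_rank_nullity (f : A →ₗ[R] B) :
    Module.length R A = Module.length R (LinearMap.ker f) + Module.length R (LinearMap.range f) :=
  Module.length_eq_add_of_exact (LinearMap.ker f).subtype f.rangeRestrict
    (Submodule.subtype_injective _) (LinearMap.surjective_rangeRestrict f)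
    (by
      rw [LinearMap.exact_iff, LinearMap.ker_rangeRestrict, Submodule.range_subtype])

lemma length_range_le_left (f : A →ₗ[R] B) :
    Module.length R (LinearMap.range f) ≤ Module.length R A := by
  rw [length_rank_nullity f]; exact le_add_self

lemma length_ker_le (f : A →ₗ[R] B) :
    Module.length R (LinearMap.ker f) ≤ Module.length R A := by
  rw [length_rank_nullity f]; exact le_self_add

lemma length_le_of_exact (f : A →ₗ[R] B) (g : B →ₗ[R] C) (h : Function.Exact f g) :
    Module.length R B ≤ Module.length R A + Module.length R C := by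
  rw [length_rank_nullity g, h.linearMap_ker_eq]
  exact add_le_add (length_range_le_left f)
    (Module.length_le_of_injective _ (Submodule.subtype_injective _))

lemma length_quot (f : A →ₗ[R] B) :
    Module.length R B = Module.length R (LinearMap.range f) +
      Module.length R (B ⧸ LinearMap.range f) :=
  Module.length_eq_add_of_exact (LinearMap.range f).subtype (LinearMap.range f).mkQ
    (Submodule.subtype_injective _) (Submodule.mkQ_surjective _)
    (by rw [LinearMap.exact_iff, Submodule.ker_mkQ, Submodule.range_subtype])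

end Basic

section Endo

variable {N : Type*} [AddCommGroup N] [Module R N]

/-- A nilpotent endomorphism with cokernel of finite length lives on a module of finite length. -/
lemma length_ne_top_of_nilpotent (f : N →ₗ[R] N) (s : ℕ) (hs : f ^ s = 0)
    (h : Module.length R (N ⧸ LinearMap.range f) ≠ ⊤) : Module.length R N ≠ ⊤ := by
  have key : ∀ i : ℕ, Module.length R (N ⧸ LinearMap.range (f ^ i)) ≠ ⊤ := by
    intro i
    induction i with
    | zero =>
      have h1 : LinearMap.range (f ^ 0) = ⊤ := by
        rw [pow_zero, Module.End.one_eq_id, LinearMap.range_id]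
      have : Subsingleton (N ⧸ LinearMap.range (f ^ 0)) := by
        rw [h1]; infer_instance
      rw [Module.length_eq_zero]; exact ENat.zero_ne_top
    | succ i ih =>
      -- exact sequence N/range f → N/range f^(i+1) → N/range f^i
      have h1 : LinearMap.range f ≤ LinearMap.ker ((LinearMap.range (f ^ (i + 1))).mkQ ∘ₗ (f ^ i)) := by
        rintro _ ⟨n, rfl⟩
        rw [LinearMap.mem_ker, LinearMap.comp_apply, Submodule.mkQ_apply,
          Submodule.Quotient.mk_eq_zero]
        exact ⟨n, by rw [pow_succ]; rfl⟩
      let α : (N ⧸ LinearMap.range f) →ₗ[R] (N ⧸ LinearMap.range (f ^ (i + 1))) :=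
        (LinearMap.range f).liftQ _ h1
      have h2 : LinearMap.range (f ^ (i + 1)) ≤ LinearMap.range (f ^ i) := by
        rintro _ ⟨n, rfl⟩
        exact ⟨f n, by rw [pow_succ]; rfl⟩
      let β : (N ⧸ LinearMap.range (f ^ (i + 1))) →ₗ[R] (N ⧸ LinearMap.range (f ^ i)) :=
        Submodule.factor h2
      have hex : Function.Exact α β := by
        intro y
        obtain ⟨n, rfl⟩ := Submodule.mkQ_surjective _ y
        constructor
        · intro hy
          have h3 : n ∈ LinearMap.range (f ^ i) := by
            have : β ((LinearMap.range (f ^ (i + 1))).mkQ n) = (LinearMap.range (f ^ i)).mkQ n := rfl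
            rw [this] at hy
            simpa using hy
          obtain ⟨n', hn'⟩ := h3
          exact ⟨(LinearMap.range f).mkQ n', by
            show (LinearMap.range (f ^ (i + 1))).mkQ ((f ^ i) n') = _
            rw [hn']⟩
        · rintro ⟨z, hz⟩
          obtain ⟨n', rfl⟩ := Submodule.mkQ_surjective _ z
          rw [← hz]
          show (LinearMap.range (f ^ i)).mkQ ((f ^ i) n') = 0
          rw [Submodule.mkQ_apply, Submodule.Quotient.mk_eq_zero]
          exact ⟨n', rfl⟩
      have := length_le_of_exact α β hex
      intro hcon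
      rw [hcon, top_le_iff, ENat.add_eq_top] at this
      exact this.elim h ih
  have h1 := key s
  rw [hs, LinearMap.range_zero] at h1
  rwa [(Submodule.quotEquivOfEqBot (⊥ : Submodule R N) rfl).length_eq] at h1

/-- Over a Noetherian module, the kernel of an endomorphism is not longer than its cokernel. -/
lemma length_ker_le_length_coker [IsNoetherian R N] (f : N →ₗ[R] N) :
    Module.length R (LinearMap.ker f) ≤ Module.length R (N ⧸ LinearMap.range f) := by
  by_cases htop : Module.length R (N ⧸ LinearMap.range f) = ⊤
  · rw [htop]; exact le_top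
  obtain ⟨k, hk⟩ : ∃ k, ∀ j ≥ k, LinearMap.ker (f ^ k) = LinearMap.ker (f ^ j) := by
    have := (monotone_stabilizes_iff_noetherian (R := R) (M := N)).mpr inferInstance
      ⟨fun j => LinearMap.ker (f ^ j), fun a b hab => by
        intro z hz
        obtain ⟨c, rfl⟩ := Nat.exists_eq_add_of_le hab
        show z ∈ LinearMap.ker (f ^ (a + c))
        rw [LinearMap.mem_ker, add_comm, pow_add]
        have hz' : (f ^ a) z = 0 := hz
        show (f ^ c) ((f ^ a) z) = 0
        rw [hz', map_zero]⟩
    exact this
  set s := k + 1 with hs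
  have hks : ∀ z, (f ^ (s + 1)) z = 0 → (f ^ s) z = 0 := by
    intro z hz
    have h1 := hk s (by omega)
    have h2 := hk (s + 1) (by omega)
    have h3 : z ∈ LinearMap.ker (f ^ (s + 1)) := hz
    rw [← h2, h1] at h3
    exact h3
  let K : Submodule R N := LinearMap.ker (f ^ s)
  have hfK : ∀ z ∈ K, f z ∈ K := by
    intro z hz
    have hz' : (f ^ s) z = 0 := hz
    show (f ^ s) (f z) = 0
    have h1 : (f ^ s) (f z) = (f ^ (s + 1)) z := by rw [pow_succ]; rfl
    have h2 : (f ^ (s + 1)) z = f ((f ^ s) z) := by rw [pow_succ']; rfl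
    rw [h1, h2, hz', map_zero]
  let fK : K →ₗ[R] K := f.restrict hfK
  have hpow : ∀ (j : ℕ) (z : K), (((fK ^ j) z : K) : N) = (f ^ j) (z : N) := by
    intro j
    induction j with
    | zero => intro z; simp
    | succ j ih =>
      intro z
      rw [pow_succ, pow_succ]
      show (((fK ^ j) (fK z) : K) : N) = (f ^ j) (f z)
      rw [ih]; rfl
  have hnil : fK ^ s = 0 := by
    ext z
    rw [hpow]
    exact z.2
  -- the cokernel of `fK` embeds into the cokernel of `f`
  have hle : LinearMap.range fK ≤ LinearMap.ker ((LinearMap.range f).mkQ ∘ₗ K.subtype) := by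
    rintro _ ⟨z, rfl⟩
    rw [LinearMap.mem_ker, LinearMap.comp_apply, Submodule.mkQ_apply,
      Submodule.Quotient.mk_eq_zero]
    exact ⟨z, rfl⟩
  let ι : (K ⧸ LinearMap.range fK) →ₗ[R] (N ⧸ LinearMap.range f) :=
    (LinearMap.range fK).liftQ _ hle
  have hι : Function.Injective ι := by
    rw [← LinearMap.ker_eq_bot, eq_bot_iff]
    intro y hy
    obtain ⟨z, rfl⟩ := Submodule.mkQ_surjective _ y
    have h1 : (LinearMap.range f).mkQ (z : N) = 0 := hy
    rw [Submodule.mkQ_apply, Submodule.Quotient.mk_eq_zero] at h1
    obtain ⟨n, hn⟩ := h1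
    have h2 : (f ^ s) n = 0 := by
      apply hks
      have : (f ^ (s + 1)) n = (f ^ s) (f n) := by rw [pow_succ]; rfl
      rw [this, hn]
      exact z.2
    rw [Submodule.mem_bot, Submodule.mkQ_apply, Submodule.Quotient.mk_eq_zero]
    exact ⟨⟨n, h2⟩, Subtype.ext hn⟩
  have h1 : Module.length R (K ⧸ LinearMap.range fK) ≤ Module.length R (N ⧸ LinearMap.range f) :=
    Module.length_le_of_injective ι hι
  have h2 : Module.length R (K ⧸ LinearMap.range fK) ≠ ⊤ := fun h => htop (top_le_iff.mp (h ▸ h1))
  have h3 : Module.length R K ≠ ⊤ := length_ne_top_of_nilpotent fK s hnil h2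
  have h4 := length_rank_nullity fK
  have h5 := length_quot fK
  have h6 : Module.length R (LinearMap.range fK) ≠ ⊤ := by
    intro h
    rw [h5, h, top_add] at h3
    exact h3 rfl
  have h7 : Module.length R (LinearMap.ker fK) = Module.length R (K ⧸ LinearMap.range fK) := by
    rw [h5, add_comm] at h4
    exact ((ENat.add_left_injective_of_ne_top h6) h4).symm
  -- kernel of f is contained in K
  have h8 : Module.length R (LinearMap.ker f) ≤ Module.length R (LinearMap.ker fK) := by
    let j : LinearMap.ker f →ₗ[R] LinearMap.ker fK :=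
      LinearMap.codRestrict _ (LinearMap.codRestrict K (LinearMap.ker f).subtype (by
        rintro ⟨z, hz⟩
        show (f ^ s) z = 0
        have hz' : f z = 0 := hz
        rw [hs, pow_succ]
        show (f ^ k) (f z) = 0
        rw [hz', map_zero])) (by
        rintro ⟨z, hz⟩
        rw [LinearMap.mem_ker]
        exact Subtype.ext hz)
    refine Module.length_le_of_injective j ?_
    intro a b hab
    have h9 : ((j a : K) : N) = ((j b : K) : N) := by rw [hab]
    exact Subtype.ext h9
  exact h8.trans (h7.le.trans h1)

end Endo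

section Sub

variable {Q : Type*} [AddCommGroup Q] [Module R Q]

/-- For a submodule `V` of a Noetherian module `Q`, the length of `V/aV` is at most the length
of `Q/aQ`. -/
lemma length_sub_le [IsNoetherian R Q] (V : Submodule R Q) (a : R) :
    Module.length R (V ⧸ LinearMap.range (LinearMap.lsmul R V a)) ≤
      Module.length R (Q ⧸ LinearMap.range (LinearMap.lsmul R Q a)) := by
  let i₁ : V →ₗ[R] V := LinearMap.lsmul R V a
  let i₂ : Q →ₗ[R] Q := LinearMap.lsmul R Q a
  let i₃ : (Q ⧸ V) →ₗ[R] (Q ⧸ V) := LinearMap.lsmul R (Q ⧸ V) a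
  have hV : Function.Exact V.subtype V.mkQ := by
    rw [LinearMap.exact_iff, Submodule.ker_mkQ, Submodule.range_subtype]
  have h₁ : V.subtype.comp i₁ = i₂.comp V.subtype := by ext; rfl
  have h₂ : V.mkQ.comp i₂ = i₃.comp V.mkQ := by ext; rfl
  have hG : LinearMap.range i₁ ≤ LinearMap.ker ((LinearMap.range i₂).mkQ ∘ₗ V.subtype) := by
    rintro _ ⟨z, rfl⟩
    rw [LinearMap.mem_ker, LinearMap.comp_apply, Submodule.mkQ_apply,
      Submodule.Quotient.mk_eq_zero]
    exact ⟨z, rfl⟩
  let G : (V ⧸ LinearMap.range i₁) →ₗ[R] (Q ⧸ LinearMap.range i₂) :=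
    (LinearMap.range i₁).liftQ _ hG
  have hex := SnakeLemma.exact_δ'_left i₁ i₂ i₃ V.subtype V.mkQ hV V.subtype V.mkQ hV h₁ h₂
    (LinearMap.ker i₃).subtype (by rw [LinearMap.exact_iff, Submodule.range_subtype])
    (LinearMap.range i₁).mkQ (by rw [LinearMap.exact_iff, Submodule.ker_mkQ])
    (LinearMap.range i₂).mkQ (by rw [LinearMap.exact_iff, Submodule.ker_mkQ])
    (Submodule.mkQ_surjective _) (Submodule.subtype_injective _) G (by ext; rfl)
    (Submodule.mkQ_surjective _)
  -- the map Q/aQ → N/aN
  have hH : LinearMap.range i₂ ≤ LinearMap.ker ((LinearMap.range i₃).mkQ ∘ₗ V.mkQ) := by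
    rintro _ ⟨z, rfl⟩
    rw [LinearMap.mem_ker, LinearMap.comp_apply, Submodule.mkQ_apply, Submodule.mkQ_apply,
      Submodule.Quotient.mk_eq_zero]
    exact ⟨V.mkQ z, rfl⟩
  let H : (Q ⧸ LinearMap.range i₂) →ₗ[R] ((Q ⧸ V) ⧸ LinearMap.range i₃) :=
    (LinearMap.range i₂).liftQ _ hH
  have hHs : Function.Surjective H := by
    intro y
    obtain ⟨y', rfl⟩ := Submodule.mkQ_surjective _ y
    obtain ⟨q, rfl⟩ := Submodule.mkQ_surjective _ y'
    exact ⟨(LinearMap.range i₂).mkQ q, rfl⟩
  have hGH : ∀ z, H (G z) = 0 := by
    intro z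
    obtain ⟨v, rfl⟩ := Submodule.mkQ_surjective _ z
    show (LinearMap.range i₃).mkQ (V.mkQ (v : Q)) = 0
    have : V.mkQ (v : Q) = 0 := by simp
    rw [this, map_zero]
  have h1 : Module.length R (V ⧸ LinearMap.range i₁) =
      Module.length R (LinearMap.ker G) + Module.length R (LinearMap.range G) :=
    length_rank_nullity G
  have h2 : Module.length R (LinearMap.ker G) ≤ Module.length R (LinearMap.ker i₃) := by
    rw [hex.linearMap_ker_eq]
    exact length_range_le_left _
  have h3 : Module.length R (LinearMap.ker i₃) ≤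
      Module.length R ((Q ⧸ V) ⧸ LinearMap.range i₃) := length_ker_le_length_coker i₃
  have h4 : Module.length R (Q ⧸ LinearMap.range i₂) =
      Module.length R (LinearMap.ker H) + Module.length R (LinearMap.range H) :=
    length_rank_nullity H
  have h5 : Module.length R (LinearMap.range G) ≤ Module.length R (LinearMap.ker H) := by
    have hle : LinearMap.range G ≤ LinearMap.ker H := by
      rintro _ ⟨z, rfl⟩
      exact hGH z
    exact Module.length_le_of_injective (Submodule.inclusion hle)
      (Submodule.inclusion_injective hle)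
  have h6 : Module.length R (LinearMap.range H) = Module.length R ((Q ⧸ V) ⧸ LinearMap.range i₃) := by
    rw [LinearMap.range_eq_top.mpr hHs, Module.length_top]
  show Module.length R (V ⧸ LinearMap.range i₁) ≤ Module.length R (Q ⧸ LinearMap.range i₂)
  rw [h1, h4, h6, add_comm (Module.length R (LinearMap.ker H))]
  exact add_le_add (h2.trans h3) h5

end Sub

/-- A module of length at most `n` is generated by at most `n` elements. -/
lemma exists_generators.{u, v} {R : Type u} [CommRing R] (n : ℕ) :
    ∀ (V : Type v) [AddCommGroup V] [Module R V], Module.length R V ≤ n →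
      ∃ s : Finset V, s.card ≤ n ∧ Submodule.span R (↑s : Set V) = ⊤ := by
  classical
  induction n with
  | zero =>
    intro V _ _ h
    have h1 : Module.length R V = 0 := le_antisymm (by simpa using h) zero_le
    have : Subsingleton V := Module.length_eq_zero_iff.mp h1
    exact ⟨∅, by simp, Subsingleton.elim _ _⟩
  | succ n ih =>
    intro V _ _ h
    by_cases hV : Subsingleton V
    · exact ⟨∅, by simp, Subsingleton.elim _ _⟩
    rw [not_subsingleton_iff_nontrivial] at hV
    obtain ⟨v, hv⟩ := exists_ne (0 : V)
    let W : Submodule R V := Submodule.span R {v}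
    have h1 : Module.length R V = Module.length R W + Module.length R (V ⧸ W) :=
      Module.length_eq_add_of_exact W.subtype W.mkQ (Submodule.subtype_injective _)
        (Submodule.mkQ_surjective _) (by
          rw [LinearMap.exact_iff, Submodule.ker_mkQ, Submodule.range_subtype])
    have h2 : 1 ≤ Module.length R W := by
      have : Nontrivial W := by
        refine ⟨⟨⟨v, Submodule.mem_span_singleton_self v⟩, 0, ?_⟩⟩
        intro h
        exact hv (congrArg Subtype.val h)
      exact Order.one_le_iff_pos.mpr Module.length_pos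
    have h3 : Module.length R (V ⧸ W) ≤ n := by
      have h4 : 1 + Module.length R (V ⧸ W) ≤ ((n + 1 : ℕ) : ℕ∞) :=
        (add_le_add_left h2 _).trans (h1 ▸ h)
      have h5 : ((n + 1 : ℕ) : ℕ∞) = 1 + (n : ℕ∞) := by push_cast; ring
      rw [h5] at h4
      exact (ENat.add_le_add_iff_left ENat.one_ne_top).mp h4
    obtain ⟨s, hs, hspan⟩ := ih (V ⧸ W) h3
    let g : V ⧸ W → V := Function.surjInv (Submodule.mkQ_surjective W)
    have hg : ∀ z, W.mkQ (g z) = z := Function.surjInv_eq (Submodule.mkQ_surjective W)
    refine ⟨insert v (s.image g), ?_, ?_⟩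
    · exact (Finset.card_insert_le _ _).trans (Nat.succ_le_succ (Finset.card_image_le.trans hs))
    · rw [eq_top_iff]
      intro z _
      have h6 : W.mkQ z ∈ Submodule.span R (↑s : Set (V ⧸ W)) := by rw [hspan]; trivial
      have h7 : Submodule.span R (↑s : Set (V ⧸ W)) ≤
          (Submodule.span R (↑(insert v (s.image g)) : Set V)).map W.mkQ := by
        rw [Submodule.span_le]
        intro q hq
        refine ⟨g q, Submodule.subset_span ?_, hg q⟩
        simp only [Finset.coe_insert, Finset.coe_image]
        exact Set.mem_insert_of_mem _ ⟨q, hq, rfl⟩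
      obtain ⟨z', hz', hzz'⟩ := h7 h6
      have h8 : z - z' ∈ W := by
        rw [← Submodule.ker_mkQ W, LinearMap.mem_ker, map_sub, hzz', sub_self]
      have h9 : W ≤ Submodule.span R (↑(insert v (s.image g)) : Set V) := by
        refine Submodule.span_mono ?_
        rw [Set.singleton_subset_iff]
        simp
      have := Submodule.add_mem _ (h9 h8) hz'
      rwa [sub_add_cancel] at this

end Pool.Agent.TH211.TP
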