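import Mathlib
import Pool.Agent.TH211.TP.Core
import Pool.Agent.TH211.TP.Length

set_option autoImplicit false

namespace Pool.Agent.TH211.TP

open scoped TensorProduct

section

variable {R : Type*} [CommRing R]

/-- If `R/(x,y)` has length at most `n`, all ideals are generated modulo `x` by `n` elements. -/
lemma gens_mod [IsLocalRing R] [IsNoetherianRing R] (x y : R)
    (hy : y ∈ IsLocalRing.maximalIdeal R) (n : ℕ)
    (hn : Module.length R (R ⧸ Ideal.span {x, y}) ≤ n) (J : Ideal R) :
    ∃ s : Finset R, s.card ≤ n ∧ (↑s : Set R) ⊆ J ∧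
      J ≤ Ideal.span (↑s : Set R) ⊔ Ideal.span {x} := by
  classical
  let X : Ideal R := Ideal.span {x}
  let V : Submodule R (R ⧸ X) := Submodule.map X.mkQ J
  have h1 := length_sub_le V y
  have h2 : Module.length R ((R ⧸ X) ⧸ LinearMap.range (LinearMap.lsmul R (R ⧸ X) y)) ≤
      Module.length R (R ⧸ Ideal.span {x, y}) := by
    have hle : Ideal.span {x, y} ≤
        LinearMap.ker ((LinearMap.range (LinearMap.lsmul R (R ⧸ X) y)).mkQ ∘ₗ X.mkQ) := by
      rw [Ideal.span_le]
      intro z hz
      rcases hz with rfl | hz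
      · show (LinearMap.range (LinearMap.lsmul R (R ⧸ X) y)).mkQ (X.mkQ z) = 0
        have : X.mkQ z = 0 := by
          rw [Submodule.mkQ_apply, Submodule.Quotient.mk_eq_zero]
          exact Ideal.mem_span_singleton_self z
        rw [this, map_zero]
      · rw [Set.mem_singleton_iff] at hz
        subst hz
        show (LinearMap.range (LinearMap.lsmul R (R ⧸ X) z)).mkQ (X.mkQ z) = 0
        rw [Submodule.mkQ_apply (LinearMap.range (LinearMap.lsmul R (R ⧸ X) z)),
          Submodule.Quotient.mk_eq_zero]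
        refine ⟨X.mkQ 1, ?_⟩
        rw [LinearMap.lsmul_apply, ← map_smul, smul_eq_mul, mul_one]
    refine Module.length_le_of_surjective ((Ideal.span {x, y}).liftQ _ hle) ?_
    intro z
    obtain ⟨z', rfl⟩ := Submodule.mkQ_surjective _ z
    obtain ⟨r, rfl⟩ := Submodule.mkQ_surjective _ z'
    exact ⟨(Ideal.span {x, y}).mkQ r, rfl⟩
  obtain ⟨sb, hcard, hspan⟩ := exists_generators n (V ⧸ LinearMap.range (LinearMap.lsmul R V y))
    (h1.trans (h2.trans hn))
  let ρ : J →ₗ[R] V := LinearMap.codRestrict V (X.mkQ ∘ₗ J.subtype)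
    (fun j => ⟨j, j.2, rfl⟩)
  have hρ : Function.Surjective ρ := by
    rintro ⟨_, j, hj, rfl⟩
    exact ⟨⟨j, hj⟩, rfl⟩
  let π : J →ₗ[R] (V ⧸ LinearMap.range (LinearMap.lsmul R V y)) :=
    (LinearMap.range (LinearMap.lsmul R V y)).mkQ ∘ₗ ρ
  have hπ : Function.Surjective π := (Submodule.mkQ_surjective _).comp hρ
  let g := Function.surjInv hπ
  have hg : ∀ z, π (g z) = z := Function.surjInv_eq hπ
  refine ⟨sb.image (fun z => (g z : R)), Finset.card_image_le.trans hcard, ?_, ?_⟩
  · intro z hz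
    rw [Finset.coe_image] at hz
    obtain ⟨z', _, rfl⟩ := hz
    exact (g z').2
  · set s : Finset R := sb.image (fun z => (g z : R)) with hs
    refine Submodule.le_of_le_smul_of_le_jacobson_bot (I := Ideal.span {y})
      (IsNoetherian.noetherian J) ?_ ?_
    · rw [IsLocalRing.jacobson_eq_maximalIdeal ⊥ bot_ne_top, Ideal.span_le]
      intro z hz
      rw [Set.mem_singleton_iff] at hz
      rw [hz]; exact hy
    · intro j hj
      have h3 : Submodule.span R (↑sb : Set (V ⧸ LinearMap.range (LinearMap.lsmul R V y))) ≤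
          Submodule.map π (Submodule.comap J.subtype (Ideal.span (↑s : Set R))) := by
        rw [Submodule.span_le]
        intro q hq
        refine ⟨g q, Submodule.subset_span ?_, hg q⟩
        rw [hs, Finset.coe_image]
        exact ⟨q, hq, rfl⟩
      have h4 : π ⟨j, hj⟩ ∈ Submodule.span R (↑sb : Set (V ⧸ LinearMap.range
          (LinearMap.lsmul R V y))) := by rw [hspan]; trivial
      obtain ⟨j₁, hj₁, hj₁'⟩ := h3 h4
      have h5 : π (⟨j, hj⟩ - j₁) = 0 := by rw [map_sub, hj₁', sub_self]
      have h6 : ρ (⟨j, hj⟩ - j₁) ∈ LinearMap.range (LinearMap.lsmul R V y) := by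
        have : (LinearMap.range (LinearMap.lsmul R V y)).mkQ (ρ (⟨j, hj⟩ - j₁)) = 0 := h5
        rwa [Submodule.mkQ_apply, Submodule.Quotient.mk_eq_zero] at this
      obtain ⟨v, hv⟩ := h6
      obtain ⟨j₂, rfl⟩ := hρ v
      have h7 : X.mkQ (j - (j₁ : R) - y * (j₂ : R)) = 0 := by
        have h8 := congrArg (fun t : V => (t : R ⧸ X)) hv
        have h9 : X.mkQ (y * (j₂ : R)) = X.mkQ (j - (j₁ : R)) := by
          have : X.mkQ (y * (j₂ : R)) = y • X.mkQ (j₂ : R) := by
            rw [← map_smul, smul_eq_mul]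
          rw [this]; exact h8
        rw [map_sub, h9, sub_self]
      have h10 : j - (j₁ : R) - y * (j₂ : R) ∈ X := by
        rwa [Submodule.mkQ_apply, Submodule.Quotient.mk_eq_zero] at h7
      have h11 : j = ((j₁ : R) + (j - (j₁ : R) - y * (j₂ : R))) + y * (j₂ : R) := by ring
      rw [h11]
      refine Submodule.add_mem _ (Submodule.mem_sup_left (Submodule.add_mem _
        (Submodule.mem_sup_left hj₁) (Submodule.mem_sup_right h10)))
        (Submodule.mem_sup_right ?_)
      exact Ideal.mul_mem_mul (Ideal.mem_span_singleton_self y) j₂.2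

end

section

variable {R : Type*} [CommRing R] [IsDomain R] [IsLocalRing R] [IsNoetherianRing R]
  (M : Type*) [AddCommGroup M] [Module R M] [Module.Finite R M]

/-- Two parameters: exponents at least `ℓ(R/(x,y)) + 1` are test exponents. -/
theorem torsion_two (x y : R) (hx : x ∈ IsLocalRing.maximalIdeal R)
    (hy : y ∈ IsLocalRing.maximalIdeal R) (n e : ℕ)
    (hn : Module.length R (R ⧸ Ideal.span {x, y}) ≤ n) (he : n + 1 ≤ e)
    (hM : ¬ Module.Free R M) : Submodule.torsion R (⨂[R]^e M) ≠ ⊥ :=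
  core x hx n e (gens_mod x y hy n hn) (Or.inl he) hM

/-- One parameter: exponents at least `ℓ(R/(y))` are test exponents. -/
theorem torsion_one (y : R) (hy : y ∈ IsLocalRing.maximalIdeal R) (n e : ℕ)
    (hn : Module.length R (R ⧸ Ideal.span {y}) ≤ n) (he : n ≤ e)
    (hM : ¬ Module.Free R M) : Submodule.torsion R (⨂[R]^e M) ≠ ⊥ := by
  refine core 0 (Submodule.zero_mem _) n e (gens_mod 0 y hy n ?_) (Or.inr ⟨rfl, he⟩) hM
  rwa [Ideal.span_insert_zero]

end

end Pool.Agent.TH211.TP
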