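import Mathlib
import Pool.Agent.TH211.TP.Param

set_option autoImplicit false

namespace Pool.Agent.TH211.TP

open PowerSeries

universe u

variable (k : Type u) [Field k] (c : ℕ)

/-- The ring `k + t^c k[[t]]` of power series over `k` whose coefficients of index strictly
between `0` and `c` vanish. -/
def Cusp : Subalgebra k k⟦X⟧ where
  carrier := {f | ∀ i, 0 < i → i < c → coeff i f = 0}
  mul_mem' := by
    intro f g hf hg i hi hic
    rw [coeff_mul]
    refine Finset.sum_eq_zero fun p hp => ?_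
    rw [Finset.HasAntidiagonal.mem_antidiagonal] at hp
    by_cases h0 : p.1 = 0
    · have h1 : p.2 = i := by omega
      rw [h1, hg i hi hic, mul_zero]
    · rw [hf p.1 (by omega) (by omega), zero_mul]
  add_mem' := by
    intro f g hf hg i hi hic
    rw [map_add, hf i hi hic, hg i hi hic, add_zero]
  algebraMap_mem' := by
    intro a i hi _
    rw [PowerSeries.algebraMap_apply]
    simp only [Algebra.algebraMap_self, RingHom.id_apply]
    exact coeff_C_of_ne_zero (by omega)

variable {k c}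

lemma mem_cusp {f : k⟦X⟧} : f ∈ Cusp k c ↔ ∀ i, 0 < i → i < c → coeff i f = 0 := Iff.rfl

lemma mem_cusp_of_dvd {f : k⟦X⟧} (h : X ^ c ∣ f) : f ∈ Cusp k c := by
  intro i _ hic
  exact X_pow_dvd_iff.mp h i hic

lemma dvd_of_constantCoeff {f : k⟦X⟧} (hf : f ∈ Cusp k c) (h : constantCoeff f = 0) :
    X ^ c ∣ f := by
  rw [X_pow_dvd_iff]
  intro m hm
  by_cases h0 : m = 0
  · rw [h0, coeff_zero_eq_constantCoeff_apply, h]
  · exact hf m (by omega) hm

/-- A nonunit constant term detects nonunits. -/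
lemma isUnit_iff (f : Cusp k c) : IsUnit f ↔ constantCoeff (f : k⟦X⟧) ≠ 0 := by
  constructor
  · intro h
    have h1 : IsUnit (f : k⟦X⟧) := h.map (Cusp k c).subtype
    exact (PowerSeries.isUnit_constantCoeff _ h1).ne_zero
  · intro h
    have h1 : (f : k⟦X⟧) * (f : k⟦X⟧)⁻¹ = 1 := PowerSeries.mul_inv_cancel _ h
    have h2 : (f : k⟦X⟧)⁻¹ ∈ Cusp k c := by
      intro i hi hic
      have h3 : coeff i ((f : k⟦X⟧) * (f : k⟦X⟧)⁻¹) = 0 := by
        rw [h1, coeff_one, if_neg (by omega)]
      rw [coeff_mul, Finset.sum_eq_single (0, i)] at h3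
      · rw [coeff_zero_eq_constantCoeff_apply] at h3
        exact (mul_eq_zero.mp h3).resolve_left h
      · intro p hp hpne
        rw [Finset.HasAntidiagonal.mem_antidiagonal] at hp
        have h4 : p.1 ≠ 0 := by
          intro h0
          apply hpne
          ext
          · exact h0
          · show p.2 = i
            omega
        rw [f.2 p.1 (by omega) (by omega), zero_mul]
      · intro h5
        exact absurd (Finset.HasAntidiagonal.mem_antidiagonal.mpr (zero_add i)) h5
    exact IsUnit.of_mul_eq_one ⟨_, h2⟩ (Subtype.ext h1)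

instance cuspLocal : IsLocalRing (Cusp k c) := by
  refine IsLocalRing.of_nonunits_add ?_
  intro a b ha hb
  rw [mem_nonunits_iff, isUnit_iff, not_not] at ha hb ⊢
  have : ((a + b : Cusp k c) : k⟦X⟧) = (a : k⟦X⟧) + (b : k⟦X⟧) := rfl
  rw [this, map_add, ha, hb, add_zero]

lemma mem_maximalIdeal_iff (f : Cusp k c) :
    f ∈ IsLocalRing.maximalIdeal (Cusp k c) ↔ constantCoeff (f : k⟦X⟧) = 0 := by
  rw [IsLocalRing.mem_maximalIdeal, mem_nonunits_iff, isUnit_iff, not_not]

/-- The element `t^(c+i)` of the ring. -/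
noncomputable def tp (k : Type u) [Field k] (c i : ℕ) : Cusp k c :=
  ⟨X ^ (c + i), mem_cusp_of_dvd (pow_dvd_pow _ (Nat.le_add_right c i))⟩

@[simp] lemma coe_tp (i : ℕ) : ((tp k c i : Cusp k c) : k⟦X⟧) = X ^ (c + i) := rfl

lemma tp_mem (hc : 0 < c) (i : ℕ) : tp k c i ∈ IsLocalRing.maximalIdeal (Cusp k c) := by
  rw [mem_maximalIdeal_iff, coe_tp, map_pow, constantCoeff_X, zero_pow (by omega)]

/-- Decomposition of a power series as a truncation plus a multiple of `X^c`. -/
lemma exists_trunc (g : k⟦X⟧) (c : ℕ) :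
    ∃ h : k⟦X⟧, g = ∑ i ∈ Finset.range c, C (coeff i g) * X ^ i + X ^ c * h := by
  have h1 : X ^ c ∣ g - ∑ i ∈ Finset.range c, C (coeff i g) * X ^ i := by
    rw [X_pow_dvd_iff]
    intro m hm
    rw [map_sub, map_sum, Finset.sum_eq_single m]
    · rw [coeff_C_mul_X_pow, if_pos rfl, sub_self]
    · intro i _ him
      rw [coeff_C_mul_X_pow, if_neg (Ne.symm him)]
    · intro h
      exact absurd (Finset.mem_range.mpr hm) h
  obtain ⟨h, hh⟩ := h1
  exact ⟨h, by rw [← hh]; ring⟩

/-- The maximal ideal is generated by `t^c, …, t^(2c-1)`. -/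
lemma maximalIdeal_eq_span (hc : 0 < c) :
    IsLocalRing.maximalIdeal (Cusp k c) = Ideal.span (tp k c '' (↑(Finset.range c) : Set ℕ)) := by
  classical
  apply le_antisymm
  · intro f hf
    rw [mem_maximalIdeal_iff] at hf
    obtain ⟨g, hg⟩ := dvd_of_constantCoeff f.2 hf
    obtain ⟨h, hh⟩ := exists_trunc g c
    -- f = ∑_{i<c} g_i X^(c+i) + X^(2c) h
    have h1 : f = ∑ i ∈ Finset.range c,
        (algebraMap k (Cusp k c) (coeff i g)) * tp k c i +
          (⟨X ^ c * h, mem_cusp_of_dvd (dvd_mul_right _ _)⟩ : Cusp k c) * tp k c 0 := by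
      apply Subtype.ext
      have h2 : ((∑ i ∈ Finset.range c, (algebraMap k (Cusp k c) (coeff i g)) * tp k c i +
          (⟨X ^ c * h, mem_cusp_of_dvd (dvd_mul_right _ _)⟩ : Cusp k c) * tp k c 0 :
            Cusp k c) : k⟦X⟧) =
          ∑ i ∈ Finset.range c, C (coeff i g) * X ^ (c + i) + (X ^ c * h) * X ^ c := by
        push_cast
        congr 1
      rw [h2, hg]
      conv_lhs => rw [hh]
      rw [mul_add, Finset.mul_sum]
      congr 1
      · refine Finset.sum_congr rfl fun i _ => ?_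
        rw [pow_add]; ring
      · ring
    rw [h1]
    refine Submodule.add_mem _ (Submodule.sum_mem _ fun i hi => ?_) ?_
    · exact Ideal.mul_mem_left _ _ (Submodule.subset_span ⟨i, hi, rfl⟩)
    · exact Ideal.mul_mem_left _ _ (Submodule.subset_span
        ⟨0, Finset.mem_coe.mpr (Finset.mem_range.mpr hc), rfl⟩)
  · rw [Ideal.span_le]
    rintro _ ⟨i, _, rfl⟩
    exact tp_mem hc i

/-- Every nonzero prime ideal is the maximal ideal. -/
lemma prime_eq_maximalIdeal (hc : 0 < c) (P : Ideal (Cusp k c)) (hP : P.IsPrime) (h0 : P ≠ ⊥) :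
    P = IsLocalRing.maximalIdeal (Cusp k c) := by
  apply le_antisymm (IsLocalRing.le_maximalIdeal hP.ne_top)
  obtain ⟨f, hfP, hf0⟩ := Submodule.exists_mem_ne_zero_of_ne_bot h0
  have hf0' : (f : k⟦X⟧) ≠ 0 := fun h => hf0 (Subtype.ext h)
  intro g hg
  rw [mem_maximalIdeal_iff] at hg
  obtain ⟨g', hg'⟩ := dvd_of_constantCoeff g.2 hg
  -- write f = X^n * unit
  obtain ⟨n, v, hv, hfv⟩ : ∃ (n : ℕ) (v : k⟦X⟧), constantCoeff v ≠ 0 ∧ (f : k⟦X⟧) = X ^ n * v := by
    obtain ⟨n, hn⟩ := ENat.ne_top_iff_exists.mp (PowerSeries.order_eq_top.not.mpr hf0')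
    have h1 := PowerSeries.X_pow_order_dvd (φ := (f : k⟦X⟧))
    have hn' : (f : k⟦X⟧).order.toNat = n := by rw [← hn]; rfl
    rw [hn'] at h1
    obtain ⟨v, hv⟩ := h1
    refine ⟨n, v, ?_, hv⟩
    have h2 : coeff n (f : k⟦X⟧) ≠ 0 := by
      rw [← hn']
      exact PowerSeries.coeff_order hf0'
    rw [hv] at h2
    intro h3
    apply h2
    have h4 := PowerSeries.coeff_X_pow_mul v n 0
    rw [zero_add] at h4
    rw [h4, coeff_zero_eq_constantCoeff_apply, h3]
  have hvinv : v * v⁻¹ = 1 := PowerSeries.mul_inv_cancel _ hv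
  -- g^(n+1) = f * q
  have hq : X ^ c ∣ X ^ (c * (n + 1) - n) * (g' ^ (n + 1) * v⁻¹) := by
    refine dvd_mul_of_dvd_left (pow_dvd_pow _ ?_) _
    have : n ≤ c * n := Nat.le_mul_of_pos_left n hc
    rw [mul_add, mul_one]
    omega
  have hle : n ≤ c * (n + 1) := by
    have : n ≤ c * n := Nat.le_mul_of_pos_left n hc
    rw [mul_add, mul_one]; omega
  have hgf : g ^ (n + 1) = f * ⟨_, mem_cusp_of_dvd hq⟩ := by
    apply Subtype.ext
    show (g : k⟦X⟧) ^ (n + 1) = (f : k⟦X⟧) * (X ^ (c * (n + 1) - n) * (g' ^ (n + 1) * v⁻¹))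
    rw [hg', hfv, mul_pow, ← pow_mul]
    have h5 : (X : k⟦X⟧) ^ (c * (n + 1)) = X ^ n * X ^ (c * (n + 1) - n) := by
      rw [← pow_add]; congr 1; omega
    rw [h5]
    calc X ^ n * X ^ (c * (n + 1) - n) * g' ^ (n + 1)
        = X ^ n * X ^ (c * (n + 1) - n) * g' ^ (n + 1) * (v * v⁻¹) := by rw [hvinv, mul_one]
      _ = X ^ n * v * (X ^ (c * (n + 1) - n) * (g' ^ (n + 1) * v⁻¹)) := by ring
  have hmem : g ^ (n + 1) ∈ P := by
    rw [hgf]; exact Ideal.mul_mem_right _ _ hfP
  exact hP.mem_of_pow_mem _ hmem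

lemma cuspNoetherian (hc : 0 < c) : IsNoetherianRing (Cusp k c) := by
  classical
  refine IsNoetherianRing.of_prime fun P hP => ?_
  by_cases h0 : P = ⊥
  · rw [h0]; exact Submodule.fg_bot
  · rw [prime_eq_maximalIdeal hc P hP h0, maximalIdeal_eq_span hc]
    exact Submodule.fg_span (Set.toFinite _)

lemma not_isField (hc : 0 < c) : ¬ IsField (Cusp k c) := by
  intro h
  rw [IsLocalRing.isField_iff_maximalIdeal_eq] at h
  have h1 := tp_mem (k := k) hc 0
  rw [h] at h1
  have h2 : ((tp k c 0 : Cusp k c) : k⟦X⟧) = 0 := by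
    rw [(Submodule.mem_bot _).mp h1]; rfl
  rw [coe_tp] at h2
  exact (pow_ne_zero _ PowerSeries.X_ne_zero) h2

lemma one_le_of_pos {d : WithBot ℕ∞} (h : 0 < d) : 1 ≤ d := by
  induction d using WithBot.recBotCoe with
  | bot => exact absurd h (by simp)
  | coe d =>
    have h1 : (0 : ℕ∞) < d := by exact_mod_cast h
    have h2 : (1 : ℕ∞) ≤ d := Order.one_le_iff_pos.mpr h1
    exact_mod_cast h2

lemma cuspDim (hc : 0 < c) : ringKrullDim (Cusp k c) = 1 := by
  apply le_antisymm
  · have h1 : Ring.KrullDimLE 1 (Cusp k c) := by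
      rw [Ring.krullDimLE_one_iff_of_noZeroDivisors]
      intro I hI hP
      rw [prime_eq_maximalIdeal hc I hP hI]
      infer_instance
    have := Ring.krullDimLE_iff.mp h1
    exact_mod_cast this
  · have h1 : ¬ Ring.KrullDimLE 0 (Cusp k c) := by
      intro h
      have h2 : (⊥ : Ideal (Cusp k c)).IsMaximal := by
        have : (⊥ : Ideal (Cusp k c)).IsPrime := Ideal.isPrime_bot
        exact Ideal.isMaximal_of_isPrime _
      exact not_isField hc (Ring.isField_iff_maximal_bot.mpr h2)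
    rw [Ring.krullDimLE_iff, not_le] at h1
    have h3 : (0 : WithBot ℕ∞) < ringKrullDim (Cusp k c) := by exact_mod_cast h1
    exact one_le_of_pos h3

/-- The quotient by `t^c` has length at most `c`. -/
lemma length_quot_le (hc : 0 < c) :
    Module.length (Cusp k c) (Cusp k c ⧸ Ideal.span {tp k c 0}) ≤ c := by
  classical
  -- a `k`-linear surjection from `k^c`
  let I : Ideal (Cusp k c) := Ideal.span {tp k c 0}
  let b : Fin c → Cusp k c := fun i => if (i : ℕ) = 0 then 1 else tp k c i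
  let L : (Fin c → k) →ₗ[k] (Cusp k c ⧸ I) :=
    Fintype.linearCombination k (fun i => Ideal.Quotient.mk I (b i))
  have hL : Function.Surjective L := by
    intro z
    obtain ⟨f, rfl⟩ := Ideal.Quotient.mk_surjective z
    -- f = f_0 + X^c g
    have h0 : (f - algebraMap k (Cusp k c) (constantCoeff (f : k⟦X⟧)) : Cusp k c) ∈
        IsLocalRing.maximalIdeal (Cusp k c) := by
      rw [mem_maximalIdeal_iff]
      have : ((f - algebraMap k (Cusp k c) (constantCoeff (f : k⟦X⟧)) : Cusp k c) : k⟦X⟧) =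
          (f : k⟦X⟧) - C (constantCoeff (f : k⟦X⟧)) := rfl
      rw [this, map_sub, constantCoeff_C, sub_self]
    rw [mem_maximalIdeal_iff] at h0
    obtain ⟨g, hg⟩ := dvd_of_constantCoeff (Subtype.property _) h0
    obtain ⟨h, hh⟩ := exists_trunc g c
    have hfg : (f : k⟦X⟧) = C (constantCoeff (f : k⟦X⟧)) + X ^ c * g := by
      rw [← hg]
      show (f : k⟦X⟧) = C (constantCoeff (f : k⟦X⟧)) + ((f : k⟦X⟧) - C (constantCoeff (f : k⟦X⟧)))
      ring
    refine ⟨fun i => if (i : ℕ) = 0 then constantCoeff (f : k⟦X⟧) else coeff (i : ℕ) g, ?_⟩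
    -- difference lies in `I`
    have h2 : L (fun i => if (i : ℕ) = 0 then constantCoeff (f : k⟦X⟧) else coeff (i : ℕ) g) =
        Ideal.Quotient.mk I (∑ i : Fin c, algebraMap k (Cusp k c)
          (if (i : ℕ) = 0 then constantCoeff (f : k⟦X⟧) else coeff (i : ℕ) g) * b i) := by
      rw [map_sum (Ideal.Quotient.mk I)]
      show ∑ i : Fin c, (if (i : ℕ) = 0 then constantCoeff (f : k⟦X⟧) else coeff (i : ℕ) g) •
        (Ideal.Quotient.mk I (b i)) = _
      refine Finset.sum_congr rfl fun i _ => ?_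
      have h9 : (if (i : ℕ) = 0 then constantCoeff (f : k⟦X⟧) else coeff (i : ℕ) g) •
        (Ideal.Quotient.mk I (b i)) = Ideal.Quotient.mk I
          ((if (i : ℕ) = 0 then constantCoeff (f : k⟦X⟧) else coeff (i : ℕ) g) • b i) := rfl
      rw [h9, Algebra.smul_def]
    rw [h2, Ideal.Quotient.eq]
    have h3 : (C (coeff 0 g) + X ^ c * h) ∈ Cusp k c :=
      (Cusp k c).add_mem ((Cusp k c).algebraMap_mem (coeff 0 g))
        (mem_cusp_of_dvd (dvd_mul_right _ _))
    have h4 : (∑ i : Fin c, algebraMap k (Cusp k c)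
          (if (i : ℕ) = 0 then constantCoeff (f : k⟦X⟧) else coeff (i : ℕ) g) * b i) - f =
        -(⟨_, h3⟩ * tp k c 0) := by
      apply Subtype.ext
      have h5 : (((∑ i : Fin c, algebraMap k (Cusp k c)
          (if (i : ℕ) = 0 then constantCoeff (f : k⟦X⟧) else coeff (i : ℕ) g) * b i) - f :
            Cusp k c) : k⟦X⟧) = (∑ i : Fin c,
              C (if (i : ℕ) = 0 then constantCoeff (f : k⟦X⟧) else coeff (i : ℕ) g) *
                (if (i : ℕ) = 0 then 1 else X ^ (c + (i : ℕ)))) - (f : k⟦X⟧) := by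
        rw [Subalgebra.coe_sub]
        congr 1
        push_cast
        refine Finset.sum_congr rfl fun i _ => ?_
        congr 1
        simp only [b]
        split_ifs <;> rfl
      rw [h5]
      have h6 : ((-(⟨_, h3⟩ * tp k c 0) : Cusp k c) : k⟦X⟧) =
          -((C (coeff 0 g) + X ^ c * h) * X ^ c) := by
        push_cast
        rfl
      rw [h6]
      have h7 : (∑ i : Fin c,
              C (if (i : ℕ) = 0 then constantCoeff (f : k⟦X⟧) else coeff (i : ℕ) g) *
                (if (i : ℕ) = 0 then 1 else X ^ (c + (i : ℕ)))) =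
          ∑ i ∈ Finset.range c,
              C (if i = 0 then constantCoeff (f : k⟦X⟧) else coeff i g) *
                (if i = 0 then (1 : k⟦X⟧) else X ^ (c + i)) :=
        Fin.sum_univ_eq_sum_range (fun i => C (if i = 0 then constantCoeff (f : k⟦X⟧)
          else coeff i g) * (if i = 0 then (1 : k⟦X⟧) else X ^ (c + i))) c
      rw [h7]
      obtain ⟨c', rfl⟩ : ∃ c', c = c' + 1 := ⟨c - 1, by omega⟩
      rw [Finset.sum_range_succ'] at hh ⊢
      simp only [Nat.add_eq_zero_iff, one_ne_zero, and_false, if_false, if_true, mul_one,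
        pow_zero] at hh ⊢
      have h8 : ∑ x ∈ Finset.range c', C (coeff (x + 1) g) * X ^ (c' + 1 + (x + 1)) =
          X ^ (c' + 1) * ∑ x ∈ Finset.range c', C (coeff (x + 1) g) * X ^ (x + 1) := by
        rw [Finset.mul_sum]
        refine Finset.sum_congr rfl fun i _ => ?_
        rw [pow_add]; ring
      rw [h8]
      linear_combination (-1 : k⟦X⟧) * hfg - X ^ (c' + 1) * hh
    rw [h4]
    exact Submodule.neg_mem _ (Ideal.mul_mem_left _ _ (Ideal.mem_span_singleton_self _))
  have h1 : Module.length k (Cusp k c ⧸ I) ≤ c := by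
    refine (Module.length_le_of_surjective L hL).trans ?_
    rw [Module.length_pi_of_fintype]
    simp
  have h2 := Submodule.length_le_length_restrictScalars (R := Cusp k c) (M := Cusp k c ⧸ I) k ⊤
  rw [Module.length_top] at h2
  refine h2.trans (le_trans ?_ h1)
  exact Module.length_le_of_injective (Submodule.subtype _) (Submodule.subtype_injective _)

end Pool.Agent.TH211.TP
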