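import Mathlib

set_option autoImplicit false

namespace Pool.Agent.TH211.TP

open PowerSeries

universe u

variable {k : Type u} [Field k] {N : ℕ}

/-- The coordinates of the generators: `some j` is the `j`-th basis vector, `none` is the vector
`(t, t^2, …, t^N)`. -/
noncomputable def gv (k : Type u) [Field k] {N : ℕ} : Option (Fin N) → Fin N → k⟦X⟧
  | none, i => X ^ ((i : ℕ) + 1)
  | some j, i => if j = i then 1 else 0

/-- Evaluation of a combination of words. -/
noncomputable def wordEval {e : ℕ} (a : (Fin e → Option (Fin N)) → k) (i : Fin e → Fin N) :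
    k⟦X⟧ :=
  ∑ ω : Fin e → Option (Fin N), C (a ω) * ∏ l, gv k (ω l) (i l)

lemma wordEval_cons {e : ℕ} (a : (Fin (e + 1) → Option (Fin N)) → k) (i₀ : Fin N)
    (i' : Fin e → Fin N) :
    wordEval a (Fin.cons i₀ i') =
      wordEval (fun ω' => a (Fin.cons (some i₀) ω')) i' +
        X ^ ((i₀ : ℕ) + 1) * wordEval (fun ω' => a (Fin.cons none ω')) i' := by
  unfold wordEval
  rw [← (Fin.consEquiv (fun _ : Fin (e + 1) => Option (Fin N))).sum_comp, Fintype.sum_prod_type,
    Fintype.sum_option]
  have h1 : ∀ (x : Option (Fin N)) (ω' : Fin e → Option (Fin N)),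
      C (a ((Fin.consEquiv (fun _ : Fin (e + 1) => Option (Fin N))) (x, ω'))) *
        ∏ l, gv k ((Fin.consEquiv (fun _ : Fin (e + 1) => Option (Fin N))) (x, ω') l)
          ((Fin.cons i₀ i' : Fin (e + 1) → Fin N) l) =
      gv k x i₀ * (C (a (Fin.cons x ω')) * ∏ l, gv k (ω' l) (i' l)) := by
    intro x ω'
    have h2 : (Fin.consEquiv (fun _ : Fin (e + 1) => Option (Fin N))) (x, ω') =
      (Fin.cons x ω' : Fin (e + 1) → Option (Fin N)) := rfl
    rw [h2, Fin.prod_univ_succ]
    simp only [Fin.cons_zero, Fin.cons_succ]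
    ring
  simp only [h1]
  simp only [← Finset.mul_sum]
  rw [add_comm]
  congr 1
  rw [Finset.sum_eq_single i₀]
  · simp [gv]
  · intro j _ hj
    simp [gv, hj]
  · intro h; exact absurd (Finset.mem_univ _) h

lemma X_pow_dvd_of_mul {m n : ℕ} {f : k⟦X⟧} (h : X ^ (m + n) ∣ X ^ m * f) : X ^ n ∣ f := by
  rw [pow_add] at h
  exact (mul_dvd_mul_iff_left (pow_ne_zero m PowerSeries.X_ne_zero)).mp h

/-- Words of length at most `s ≤ N` in the letters are linearly independent modulo `t^(s+1)`. -/
theorem words_independent (s : ℕ) : s ≤ N → ∀ e ≤ s, ∀ a : (Fin e → Option (Fin N)) → k,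
    (∀ i, X ^ (s + 1) ∣ wordEval a i) → a = 0 := by
  induction s with
  | zero =>
    intro _ e he a ha
    obtain rfl : e = 0 := by omega
    have h1 := ha Fin.elim0
    have h2 : wordEval a (Fin.elim0 : Fin 0 → Fin N) = C (a Fin.elim0) := by
      unfold wordEval
      rw [Fintype.sum_unique]
      simp only [Finset.univ_eq_empty, Finset.prod_empty, mul_one]
      congr 2
    rw [h2, zero_add, pow_one, X_dvd_iff, constantCoeff_C] at h1
    ext ω
    rw [Subsingleton.elim ω Fin.elim0, h1]
    rfl
  | succ s ih =>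
    intro hs e he a ha
    have ih' := ih (by omega)
    rcases Nat.lt_or_ge e (s + 1) with hlt | hge
    · exact ih' e (by omega) a (fun i => (pow_dvd_pow _ (by omega)).trans (ha i))
    obtain rfl : e = s + 1 := by omega
    set h : (Fin s → Option (Fin N)) → k := fun ω' => a (Fin.cons none ω') with hh
    have key : ∀ (i₀ : Fin N) (i' : Fin s → Fin N), X ^ (s + 1 + 1) ∣
        wordEval (fun ω' => a (Fin.cons (some i₀) ω')) i' +
          X ^ ((i₀ : ℕ) + 1) * wordEval h i' := by
      intro i₀ i'
      rw [← wordEval_cons]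
      exact ha _
    -- divisibility of the values of `h`
    have hG : ∀ m ≤ s + 1, ∀ i' : Fin s → Fin N, X ^ m ∣ wordEval h i' := by
      intro m
      induction m with
      | zero => intro _ i'; simp
      | succ m ihm =>
        intro hm i'
        have hi₀ : s - m < N := by omega
        have h1 : ∀ i'' : Fin s → Fin N, X ^ (s + 1) ∣
            wordEval (fun ω' => a (Fin.cons (some (⟨s - m, hi₀⟩ : Fin N)) ω')) i'' := by
          intro i''
          have h2 := key ⟨s - m, hi₀⟩ i''
          have h3 : X ^ (s + 1) ∣ X ^ (s - m + 1) * wordEval h i'' := by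
            have h4 : (X : k⟦X⟧) ^ (s + 1) = X ^ (s - m + 1) * X ^ m := by
              rw [← pow_add]; congr 1; omega
            rw [h4]
            exact mul_dvd_mul_left _ (ihm (by omega) i'')
          have h5 := (pow_dvd_pow (X : k⟦X⟧) (Nat.le_succ (s + 1))).trans h2
          exact (dvd_add_left h3).mp h5
        have h6 := ih' s le_rfl _ h1
        have h7 := key ⟨s - m, hi₀⟩ i'
        rw [h6] at h7
        have h8 : wordEval (0 : (Fin s → Option (Fin N)) → k) i' = 0 := by
          simp [wordEval]
        rw [h8, zero_add] at h7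
        have h9 : s + 1 + 1 = (s - m + 1) + (m + 1) := by omega
        rw [h9] at h7
        exact X_pow_dvd_of_mul h7
    have hh0 : h = 0 := ih' s le_rfl h (hG (s + 1) le_rfl)
    have hsome : ∀ i₀ : Fin N, (fun ω' => a (Fin.cons (some i₀) ω')) = 0 := by
      intro i₀
      refine ih' s le_rfl _ fun i' => ?_
      have h1 := key i₀ i'
      rw [hh0] at h1
      have h8 : wordEval (0 : (Fin s → Option (Fin N)) → k) i' = 0 := by
        simp [wordEval]
      rw [h8, mul_zero, add_zero] at h1
      exact (pow_dvd_pow _ (by omega)).trans h1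
    ext ω
    rw [← Fin.cons_self_tail ω]
    cases hx : ω 0 with
    | none => exact congrFun hh0 (Fin.tail ω)
    | some i₀ => exact congrFun (hsome i₀) (Fin.tail ω)

end Pool.Agent.TH211.TP
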