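import Mathlib
import Pool.Agent.TH211.TP.Cusp
import Pool.Agent.TH211.TP.Words

set_option autoImplicit false

namespace Pool.Agent.TH211.TP

open PowerSeries

universe u

/-- The ring `k + t^c k[[t]]`: the power series over the field `k` whose coefficients of index
strictly between `0` and `c` vanish. -/
def CuspRing (k : Type u) [Field k] (c : ℕ) : Type u := ↥(Cusp k c)

variable (k : Type u) [Field k] (c : ℕ)

noncomputable instance : CommRing (CuspRing k c) := (Cusp k c).toCommRing

instance : IsDomain (CuspRing k c) := inferInstanceAs (IsDomain (Cusp k c))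

instance : IsLocalRing (CuspRing k c) := inferInstanceAs (IsLocalRing (Cusp k c))

noncomputable instance : Algebra (CuspRing k c) k⟦X⟧ := (Cusp k c).toAlgebra

/-- Constants as elements of the ring. -/
noncomputable def CuspRing.const : k →+* CuspRing k c := algebraMap k (Cusp k c)

/-- The underlying power series. -/
noncomputable def CuspRing.val : CuspRing k c →+* k⟦X⟧ := algebraMap (CuspRing k c) k⟦X⟧

variable {k c}

lemma CuspRing.val_injective : Function.Injective (CuspRing.val k c) := Subtype.val_injective

lemma CuspRing.val_const (a : k) : CuspRing.val k c (CuspRing.const k c a) = C a := rfl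

lemma CuspRing.smul_def (r : CuspRing k c) (f : k⟦X⟧) : r • f = CuspRing.val k c r * f := rfl

lemma CuspRing.mem_max (r : CuspRing k c) : r ∈ IsLocalRing.maximalIdeal (CuspRing k c) ↔
    constantCoeff (CuspRing.val k c r) = 0 := mem_maximalIdeal_iff (k := k) (c := c) r

lemma CuspRing.dvd_of_mem {r : CuspRing k c}
    (h : r ∈ IsLocalRing.maximalIdeal (CuspRing k c)) : X ^ c ∣ CuspRing.val k c r :=
  dvd_of_constantCoeff (Subtype.property (r : ↥(Cusp k c))) ((CuspRing.mem_max r).mp h)

lemma CuspRing.exists_of_dvd {f : k⟦X⟧} (h : X ^ c ∣ f) :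
    ∃ r : CuspRing k c, CuspRing.val k c r = f := ⟨⟨f, mem_cusp_of_dvd h⟩, rfl⟩

lemma CuspRing.coeff_val (r : CuspRing k c) (i : ℕ) (h0 : 0 < i) (hi : i < c) :
    coeff i (CuspRing.val k c r) = 0 := Subtype.property (r : ↥(Cusp k c)) i h0 hi

lemma CuspRing.noetherian (hc : 0 < c) : IsNoetherianRing (CuspRing k c) := cuspNoetherian hc

lemma CuspRing.dim (hc : 0 < c) : ringKrullDim (CuspRing k c) = 1 := cuspDim hc

/-- The element `t^c`. -/
noncomputable def CuspRing.tc (k : Type u) [Field k] (c : ℕ) : CuspRing k c := tp k c 0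

lemma CuspRing.tc_mem (hc : 0 < c) :
    CuspRing.tc k c ∈ IsLocalRing.maximalIdeal (CuspRing k c) := tp_mem hc 0

lemma CuspRing.length_le (hc : 0 < c) :
    Module.length (CuspRing k c) (CuspRing k c ⧸ Ideal.span {CuspRing.tc k c}) ≤ c :=
  length_quot_le hc

end Pool.Agent.TH211.TP
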