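import Mathlib

set_option autoImplicit false

namespace Pool.Agent.TH211.TP

/-- `e` is a test exponent for `R`: for every finitely generated torsionfree `R`-module `M` that
is not free, the tensor power `M^{⊗ e}` over `R` has a nonzero torsion element. -/
def IsTestExponent.{u, v} (R : Type u) [CommRing R] (e : ℕ) : Prop :=
  ∀ (M : Type v) [AddCommGroup M] [Module R M], Module.Finite R M →
    Submodule.torsion R M = ⊥ → ¬ Module.Free R M →
      Submodule.torsion R (TensorPower R e M) ≠ ⊥

end Pool.Agent.TH211.TP
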