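import Mathlib
import Pool.Agent.TH211.TP.CuspRing
import Pool.Agent.TH211.TP.Defs

set_option autoImplicit false

namespace Pool.Agent.TH211.TP

open PowerSeries
open scoped TensorProduct

universe u

/-- The module generated by the standard basis vectors and `(t, t^2, …, t^N)`. -/
noncomputable def cuspSub (k : Type u) [Field k] (N : ℕ) :
    Submodule (CuspRing k (N + 1)) (Fin N → k⟦X⟧) :=
  Submodule.span (CuspRing k (N + 1)) (Set.range (gv k))

/-- The module as a type. -/
def CM (k : Type u) [Field k] (N : ℕ) : Type u := ↥(cuspSub k N)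

noncomputable instance (k : Type u) [Field k] (N : ℕ) : AddCommGroup (CM k N) :=
  (cuspSub k N).addCommGroup

noncomputable instance (k : Type u) [Field k] (N : ℕ) : Module (CuspRing k (N + 1)) (CM k N) :=
  (cuspSub k N).module

variable {k : Type u} [Field k] {N : ℕ}

/-- The inclusion of the module. -/
noncomputable def inc : CM k N →ₗ[CuspRing k (N + 1)] (Fin N → k⟦X⟧) := (cuspSub k N).subtype

lemma inc_injective : Function.Injective (inc (k := k) (N := N)) := Submodule.subtype_injective _

/-- The generators as elements of the module. -/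
noncomputable def gM (x : Option (Fin N)) : CM k N :=
  (⟨gv k x, Submodule.subset_span ⟨x, rfl⟩⟩ : ↥(cuspSub k N))

lemma inc_gM (x : Option (Fin N)) : inc (gM x : CM k N) = gv k x := rfl

lemma exists_coeffs (m : CM k N) :
    ∃ c : Option (Fin N) → CuspRing k (N + 1), m = ∑ x, c x • gM x := by
  have h1 : inc m ∈ Submodule.span (CuspRing k (N + 1)) (Set.range (gv k)) :=
    Subtype.property (m : ↥(cuspSub k N))
  obtain ⟨c, hc⟩ := (Submodule.mem_span_range_iff_exists_fun (CuspRing k (N + 1))).mp h1
  refine ⟨c, inc_injective ?_⟩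
  rw [← hc, map_sum]
  refine Finset.sum_congr rfl fun x _ => ?_
  rw [map_smul, inc_gM]

/-- The pure tensor of a word. -/
noncomputable def tw {e : ℕ} (ω : Fin e → Option (Fin N)) :
    ⨂[CuspRing k (N + 1)]^e (CM k N) :=
  PiTensorProduct.tprod (CuspRing k (N + 1)) (fun l => gM (ω l))

lemma span_words (e : ℕ) :
    Submodule.span (CuspRing k (N + 1)) (Set.range (fun ω : Fin e → Option (Fin N) =>
      (tw ω : ⨂[CuspRing k (N + 1)]^e (CM k N)))) = ⊤ := by
  classical
  rw [eq_top_iff, ← PiTensorProduct.span_tprod_eq_top, Submodule.span_le]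
  rintro _ ⟨m, rfl⟩
  choose c hc using fun l => exists_coeffs (m l)
  have h1 : m = fun l => ∑ x, c l x • gM x := funext hc
  rw [h1, MultilinearMap.map_sum]
  refine Submodule.sum_mem _ fun r _ => ?_
  rw [MultilinearMap.map_smul_univ]
  exact Submodule.smul_mem _ _ (Submodule.subset_span ⟨r, rfl⟩)

/-- Combinations of words without `none`, with coefficients in the maximal ideal. -/
def InJ {e : ℕ} (τ : ⨂[CuspRing k (N + 1)]^e (CM k N)) : Prop :=
  ∃ q : (Fin e → Fin N) → CuspRing k (N + 1),
    (∀ i, q i ∈ IsLocalRing.maximalIdeal (CuspRing k (N + 1))) ∧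
      τ = ∑ i, q i • tw (fun l => some (i l))

lemma InJ.zero {e : ℕ} : InJ (0 : ⨂[CuspRing k (N + 1)]^e (CM k N)) :=
  ⟨fun _ => 0, fun _ => Submodule.zero_mem _, by simp⟩

lemma InJ.add {e : ℕ} {τ τ' : ⨂[CuspRing k (N + 1)]^e (CM k N)} (h : InJ τ) (h' : InJ τ') :
    InJ (τ + τ') := by
  obtain ⟨q, hq, rfl⟩ := h
  obtain ⟨q', hq', rfl⟩ := h'
  refine ⟨fun i => q i + q' i, fun i => Submodule.add_mem _ (hq i) (hq' i), ?_⟩
  rw [← Finset.sum_add_distrib]
  exact Finset.sum_congr rfl fun i _ => (add_smul _ _ _).symm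

lemma InJ.sum {e : ℕ} {ι : Type*} (s : Finset ι)
    (f : ι → ⨂[CuspRing k (N + 1)]^e (CM k N)) (h : ∀ i ∈ s, InJ (f i)) :
    InJ (∑ i ∈ s, f i) := by
  classical
  induction s using Finset.induction_on with
  | empty => simpa using InJ.zero
  | insert a s ha ih =>
    rw [Finset.sum_insert ha]
    exact (h a (Finset.mem_insert_self _ _)).add
      (ih fun i hi => h i (Finset.mem_insert_of_mem hi))

/-- Multiplying the last generator by an element of the maximal ideal. -/
lemma smul_gM_none (j : CuspRing k (N + 1))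
    (hj : j ∈ IsLocalRing.maximalIdeal (CuspRing k (N + 1))) :
    ∃ c : Fin N → CuspRing k (N + 1),
      (∀ i, c i ∈ IsLocalRing.maximalIdeal (CuspRing k (N + 1))) ∧
      j • (gM none : CM k N) = ∑ i, c i • gM (some i) := by
  have hdvd : ∀ i : Fin N, X ^ (N + 1) ∣ CuspRing.val k (N + 1) j * X ^ ((i : ℕ) + 1) :=
    fun i => dvd_mul_of_dvd_left (CuspRing.dvd_of_mem hj) _
  choose c hc using fun i => CuspRing.exists_of_dvd (hdvd i)
  refine ⟨c, fun i => ?_, ?_⟩
  · rw [CuspRing.mem_max, hc, map_mul, (CuspRing.mem_max j).mp hj, zero_mul]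
  · apply inc_injective
    rw [map_smul, map_sum, inc_gM]
    funext l
    rw [Pi.smul_apply, Finset.sum_apply, Finset.sum_eq_single l]
    · rw [map_smul, inc_gM, Pi.smul_apply, CuspRing.smul_def, CuspRing.smul_def, hc]
      simp [gv]
    · intro i _ hi
      rw [map_smul, inc_gM, Pi.smul_apply]
      simp [gv, hi]
    · intro h; exact absurd (Finset.mem_univ _) h

lemma smul_tw_inJ {e : ℕ} (n : ℕ) : ∀ (ω : Fin e → Option (Fin N)),
    (Finset.univ.filter (fun l => ω l = none)).card = n →
      ∀ j ∈ IsLocalRing.maximalIdeal (CuspRing k (N + 1)),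
        InJ (j • (tw ω : ⨂[CuspRing k (N + 1)]^e (CM k N))) := by
  classical
  induction n with
  | zero =>
    intro ω hω j hj
    have h1 : ∀ l, ∃ i, ω l = some i := by
      intro l
      rw [← Option.ne_none_iff_exists']
      intro h
      rw [Finset.card_eq_zero] at hω
      have : l ∈ Finset.univ.filter (fun l => ω l = none) := by simp [h]
      rw [hω] at this
      exact absurd this (Finset.notMem_empty _)
    choose i hi using h1
    refine ⟨fun i' => if i' = i then j else 0, fun i' => ?_, ?_⟩
    · by_cases h : i' = i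
      · simp only [h, if_true]; exact hj
      · simp only [h, if_false]; exact Submodule.zero_mem _
    · rw [Finset.sum_eq_single i]
      · simp only [if_true]
        congr 2
        exact funext hi
      · intro i' _ hi'
        simp only [if_neg hi', zero_smul]
      · intro h; exact absurd (Finset.mem_univ _) h
  | succ n ih =>
    intro ω hω j hj
    obtain ⟨l₀, hl₀⟩ : ∃ l₀, ω l₀ = none := by
      have h1 : (Finset.univ.filter (fun l => ω l = none)).Nonempty := by
        rw [← Finset.card_pos, hω]; omega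
      obtain ⟨l₀, hl₀⟩ := h1
      exact ⟨l₀, (Finset.mem_filter.mp hl₀).2⟩
    obtain ⟨c, hc, hcj⟩ := smul_gM_none j hj
    have h2 : ∀ x : Option (Fin N), (fun l => (gM (Function.update ω l₀ x l) : CM k N)) =
        Function.update (fun l => gM (ω l)) l₀ (gM x) := by
      intro x
      funext l
      by_cases hl : l = l₀
      · subst hl; simp
      · simp [hl]
    have h3 : j • (tw ω : ⨂[CuspRing k (N + 1)]^e (CM k N)) =
        ∑ i : Fin N, c i • tw (Function.update ω l₀ (some i)) := by
      have h4 : ω = Function.update ω l₀ none := by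
        rw [← hl₀, Function.update_eq_self]
      conv_lhs => rw [h4]
      unfold tw
      rw [h2 none, ← MultilinearMap.map_update_smul, hcj, MultilinearMap.map_update_sum]
      refine Finset.sum_congr rfl fun i _ => ?_
      rw [MultilinearMap.map_update_smul, h2 (some i)]
    rw [h3]
    refine InJ.sum _ _ fun i _ => ih _ ?_ (c i) (hc i)
    have h5 : (Finset.univ.filter (fun l => Function.update ω l₀ (some i) l = none)) =
        (Finset.univ.filter (fun l => ω l = none)).erase l₀ := by
      ext l
      simp only [Finset.mem_filter, Finset.mem_univ, true_and, Finset.mem_erase]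
      by_cases hl : l = l₀
      · subst hl; simp
      · simp [hl]
    rw [h5, Finset.card_erase_of_mem (by simp [hl₀]), hω]
    omega

/-- Normal form of tensors. -/
lemma exists_normal_form {e : ℕ} (τ : ⨂[CuspRing k (N + 1)]^e (CM k N)) :
    ∃ a : (Fin e → Option (Fin N)) → k, ∃ ρ : ⨂[CuspRing k (N + 1)]^e (CM k N),
      InJ ρ ∧ τ = ∑ ω, CuspRing.const k (N + 1) (a ω) • tw ω + ρ := by
  classical
  have h1 : τ ∈ Submodule.span (CuspRing k (N + 1)) (Set.range (fun ω : Fin e → Option (Fin N) =>
      (tw ω : ⨂[CuspRing k (N + 1)]^e (CM k N)))) := by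
    rw [span_words]; trivial
  obtain ⟨c, hc⟩ := (Submodule.mem_span_range_iff_exists_fun (CuspRing k (N + 1))).mp h1
  refine ⟨fun ω => constantCoeff (CuspRing.val k (N + 1) (c ω)),
    ∑ ω, (c ω - CuspRing.const k (N + 1) (constantCoeff (CuspRing.val k (N + 1) (c ω)))) • tw ω,
    ?_, ?_⟩
  · refine InJ.sum _ _ fun ω _ => smul_tw_inJ _ ω rfl _ ?_
    rw [CuspRing.mem_max, map_sub, CuspRing.val_const, map_sub, constantCoeff_C, sub_self]
  · rw [← hc, ← Finset.sum_add_distrib]
    refine Finset.sum_congr rfl fun ω _ => ?_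
    rw [← add_smul, add_sub_cancel]

/-- Coordinate functions of the module. -/
noncomputable def coord (i : Fin N) : CM k N →ₗ[CuspRing k (N + 1)] k⟦X⟧ :=
  (LinearMap.proj i : (Fin N → k⟦X⟧) →ₗ[CuspRing k (N + 1)] k⟦X⟧) ∘ₗ inc

/-- Evaluation at a multi-index. -/
noncomputable def ev {e : ℕ} (i : Fin e → Fin N) :
    (⨂[CuspRing k (N + 1)]^e (CM k N)) →ₗ[CuspRing k (N + 1)] k⟦X⟧ :=
  evalMap (fun l => coord (k := k) (i l))

lemma ev_tw {e : ℕ} (i : Fin e → Fin N) (ω : Fin e → Option (Fin N)) :
    ev i (tw ω : ⨂[CuspRing k (N + 1)]^e (CM k N)) = ∏ l, gv k (ω l) (i l) := by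
  unfold ev evalMap tw
  rw [PiTensorProduct.lift.tprod, MultilinearMap.compLinearMap_apply,
    MultilinearMap.mkPiAlgebra_apply]
  rfl

/-- The tensor powers of exponent at most `N` are torsionfree. -/
theorem torsion_cusp {e : ℕ} (he : e ≤ N) :
    Submodule.torsion (CuspRing k (N + 1)) (⨂[CuspRing k (N + 1)]^e (CM k N)) = ⊥ := by
  classical
  rw [eq_bot_iff]
  intro τ hτ
  rw [Submodule.mem_torsion_iff] at hτ
  obtain ⟨r, hr⟩ := hτ
  have hr0 : CuspRing.val k (N + 1) (r : CuspRing k (N + 1)) ≠ 0 := by
    intro h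
    have h' : (r : CuspRing k (N + 1)) = 0 :=
      CuspRing.val_injective (by rw [h, map_zero])
    exact nonZeroDivisors.coe_ne_zero r h'
  -- all evaluations vanish
  have hev : ∀ i : Fin e → Fin N, ev i τ = 0 := by
    intro i
    have h1 : (r : CuspRing k (N + 1)) • ev i τ = 0 := by
      rw [← map_smul]
      have h2 : (r : CuspRing k (N + 1)) • τ = 0 := hr
      rw [h2, map_zero]
    rw [CuspRing.smul_def] at h1
    exact (mul_eq_zero.mp h1).resolve_left hr0
  obtain ⟨a, ρ, ⟨q, hq, rfl⟩, hτ⟩ := exists_normal_form τ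
  have hevτ : ∀ i : Fin e → Fin N, wordEval a i + CuspRing.val k (N + 1) (q i) = 0 := by
    intro i
    rw [← hev i, hτ, map_add, map_sum, map_sum]
    congr 1
    · unfold wordEval
      refine Finset.sum_congr rfl fun ω _ => ?_
      rw [map_smul, ev_tw, CuspRing.smul_def, CuspRing.val_const]
    · rw [Finset.sum_eq_single i]
      · rw [map_smul, ev_tw, CuspRing.smul_def]
        simp [gv]
      · intro i' _ hi'
        rw [map_smul, ev_tw]
        have h4 : ∃ l, i' l ≠ i l := by
          by_contra hcon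
          push Not at hcon
          exact hi' (funext hcon)
        obtain ⟨l, hl⟩ := h4
        rw [Finset.prod_eq_zero (Finset.mem_univ l), smul_zero]
        simp [gv, hl]
      · intro h; exact absurd (Finset.mem_univ _) h
  have ha : a = 0 := by
    refine words_independent N le_rfl e he a fun i => ?_
    have h5 : wordEval a i = -(CuspRing.val k (N + 1) (q i)) :=
      eq_neg_of_add_eq_zero_left (hevτ i)
    rw [h5, dvd_neg]
    exact CuspRing.dvd_of_mem (hq i)
  have hq0 : ∀ i, q i = 0 := by
    intro i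
    have h6 := hevτ i
    rw [ha] at h6
    have h7 : wordEval (0 : (Fin e → Option (Fin N)) → k) i = 0 := by simp [wordEval]
    rw [h7, zero_add] at h6
    exact CuspRing.val_injective (by rw [h6, map_zero])
  rw [Submodule.mem_bot, hτ, ha]
  simp [hq0]

/-- The module is torsionfree. -/
lemma torsion_CM : Submodule.torsion (CuspRing k (N + 1)) (CM k N) = ⊥ := by
  rw [eq_bot_iff]
  intro m hm
  rw [Submodule.mem_torsion_iff] at hm
  obtain ⟨r, hr⟩ := hm
  have hr0 : CuspRing.val k (N + 1) (r : CuspRing k (N + 1)) ≠ 0 := by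
    intro h
    have h' : (r : CuspRing k (N + 1)) = 0 :=
      CuspRing.val_injective (by rw [h, map_zero])
    exact nonZeroDivisors.coe_ne_zero r h'
  rw [Submodule.mem_bot]
  apply inc_injective
  funext i
  have h1 : (r : CuspRing k (N + 1)) • inc m = 0 := by
    rw [← map_smul]
    have h2 : (r : CuspRing k (N + 1)) • m = 0 := hr
    rw [h2, map_zero]
  have h3 := congrFun h1 i
  rw [Pi.smul_apply, CuspRing.smul_def] at h3
  rw [map_zero]
  exact (mul_eq_zero.mp h3).resolve_left hr0

lemma finite_CM : Module.Finite (CuspRing k (N + 1)) (CM k N) := by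
  refine Module.Finite.of_surjective
    (Fintype.linearCombination (CuspRing k (N + 1)) (gM (k := k) (N := N))) ?_
  intro m
  obtain ⟨c, hc⟩ := exists_coeffs m
  exact ⟨c, hc.symm⟩

/-- Linear functionals on the module take values in the maximal ideal. -/
lemma functional_mem (φ : CM k N →ₗ[CuspRing k (N + 1)] CuspRing k (N + 1))
    (m : CM k N) : φ m ∈ IsLocalRing.maximalIdeal (CuspRing k (N + 1)) := by
  -- the relation `t^c • gM none = ∑ (t^c t^(i+1)) • gM (some i)`
  have hdvd : ∀ i : Fin N, (X : k⟦X⟧) ^ (N + 1) ∣ X ^ (N + 1) * X ^ ((i : ℕ) + 1) :=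
    fun i => dvd_mul_right _ _
  choose c hc using fun i => CuspRing.exists_of_dvd (k := k) (c := N + 1) (hdvd i)
  have hrel : CuspRing.tc k (N + 1) • (gM none : CM k N) = ∑ i, c i • gM (some i) := by
    apply inc_injective
    rw [map_smul, map_sum, inc_gM]
    funext l
    rw [Pi.smul_apply, Finset.sum_apply, Finset.sum_eq_single l]
    · rw [map_smul, inc_gM, Pi.smul_apply, CuspRing.smul_def, CuspRing.smul_def, hc]
      have : CuspRing.val k (N + 1) (CuspRing.tc k (N + 1)) = X ^ (N + 1) := rfl
      rw [this]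
      simp [gv]
    · intro i _ hi
      rw [map_smul, inc_gM, Pi.smul_apply]
      simp [gv, hi]
    · intro h; exact absurd (Finset.mem_univ _) h
  have h1 : (X : k⟦X⟧) ^ (N + 1) * CuspRing.val k (N + 1) (φ (gM none)) =
      ∑ i : Fin N, X ^ (N + 1) * X ^ ((i : ℕ) + 1) *
        CuspRing.val k (N + 1) (φ (gM (some i))) := by
    have h2 := congrArg (fun z => CuspRing.val k (N + 1) (φ z)) hrel
    simp only [map_smul, map_sum, smul_eq_mul, map_mul, hc] at h2
    exact h2
  have h3 : CuspRing.val k (N + 1) (φ (gM none)) =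
      ∑ i : Fin N, X ^ ((i : ℕ) + 1) * CuspRing.val k (N + 1) (φ (gM (some i))) := by
    have h4 : (X : k⟦X⟧) ^ (N + 1) ≠ 0 := pow_ne_zero _ PowerSeries.X_ne_zero
    apply mul_left_cancel₀ h4
    rw [h1, Finset.mul_sum]
    exact Finset.sum_congr rfl fun i _ => by ring
  have hnone : φ (gM none) ∈ IsLocalRing.maximalIdeal (CuspRing k (N + 1)) := by
    rw [CuspRing.mem_max, h3, map_sum]
    refine Finset.sum_eq_zero fun i _ => ?_
    rw [map_mul, map_pow, constantCoeff_X, zero_pow (by omega), zero_mul]
  have hsome : ∀ j : Fin N, φ (gM (some j)) ∈ IsLocalRing.maximalIdeal (CuspRing k (N + 1)) := by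
    intro j
    rw [CuspRing.mem_max]
    have h5 := congrArg (fun f => coeff ((j : ℕ) + 1) f) h3
    simp only [map_sum] at h5
    rw [CuspRing.coeff_val _ _ (by omega) (by have := j.2; omega)] at h5
    rw [Finset.sum_eq_single j] at h5
    · have h6 := PowerSeries.coeff_X_pow_mul (CuspRing.val k (N + 1) (φ (gM (some j))))
        ((j : ℕ) + 1) 0
      rw [zero_add] at h6
      rw [h6, coeff_zero_eq_constantCoeff_apply] at h5
      exact h5.symm
    · intro i _ hij
      rw [PowerSeries.coeff_X_pow_mul']
      split_ifs with h7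
      · refine CuspRing.coeff_val _ _ ?_ ?_
        · have : (i : ℕ) ≠ j := fun h => hij (Fin.ext h)
          omega
        · have := j.2; omega
      · rfl
    · intro h; exact absurd (Finset.mem_univ _) h
  obtain ⟨d, rfl⟩ := exists_coeffs m
  rw [map_sum]
  refine Submodule.sum_mem _ fun x _ => ?_
  rw [map_smul, smul_eq_mul]
  refine Ideal.mul_mem_left _ _ ?_
  cases x with
  | none => exact hnone
  | some j => exact hsome j

/-- The module is not free. -/
lemma not_free_CM (hN : 0 < N) : ¬ Module.Free (CuspRing k (N + 1)) (CM k N) := by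
  intro hfree
  have hne : (gM (some ⟨0, hN⟩) : CM k N) ≠ 0 := by
    intro h
    have h1 := congrArg (fun z => inc z ⟨0, hN⟩) h
    simp only [inc_gM, map_zero, Pi.zero_apply] at h1
    simp [gv] at h1
  let b := Module.Free.chooseBasis (CuspRing k (N + 1)) (CM k N)
  have hne' : Nonempty (Module.Free.ChooseBasisIndex (CuspRing k (N + 1)) (CM k N)) := by
    by_contra hemp
    rw [not_nonempty_iff] at hemp
    apply hne
    apply b.repr.injective
    exact Subsingleton.elim _ _
  obtain ⟨i⟩ := hne'
  have h2 := functional_mem (b.coord i) (b i)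
  rw [Module.Basis.coord_apply, Module.Basis.repr_self, Finsupp.single_eq_same] at h2
  exact (IsLocalRing.maximalIdeal.isMaximal _).ne_top ((Ideal.eq_top_iff_one _).mpr h2)

end Pool.Agent.TH211.TP
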