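import Mathlib
import Pool.Agent.TH211.TP.Param

set_option autoImplicit false

namespace Pool.Agent.TH211.TP

open scoped TensorProduct

section

lemma dim_aux (d : WithBot ℕ∞) (h : d + 1 ≤ 2) : d ≤ 1 := by
  induction d using WithBot.recBotCoe with
  | bot => exact bot_le
  | coe d =>
    induction d using ENat.recTopCoe with
    | top =>
      exfalso
      have h1 : ((⊤ : ℕ∞) : WithBot ℕ∞) + 1 = ((⊤ : ℕ∞) : WithBot ℕ∞) := by
        rw [← WithBot.coe_one, ← WithBot.coe_add, top_add]
      rw [h1] at h
      have h2 : ((⊤ : ℕ∞) : WithBot ℕ∞) ≤ ((2 : ℕ∞) : WithBot ℕ∞) := h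
      rw [WithBot.coe_le_coe, top_le_iff] at h2
      exact absurd h2 (by decide)
    | coe n =>
      have h1 : ((n : ℕ∞) : WithBot ℕ∞) + 1 = (((n + 1 : ℕ) : ℕ∞) : WithBot ℕ∞) := by push_cast; rfl
      rw [h1] at h
      have h2 : (((n + 1 : ℕ) : ℕ∞) : WithBot ℕ∞) ≤ (((2 : ℕ) : ℕ∞) : WithBot ℕ∞) := h
      rw [WithBot.coe_le_coe] at h2
      have h3 : n + 1 ≤ 2 := by exact_mod_cast h2
      have h4 : ((n : ℕ∞) : WithBot ℕ∞) ≤ (((1 : ℕ) : ℕ∞) : WithBot ℕ∞) := by
        rw [WithBot.coe_le_coe]
        exact_mod_cast (by omega : n ≤ 1)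
      exact h4

/-- In a Noetherian local ring of dimension at most one some element of the maximal ideal is
contained in no nonmaximal prime. -/
lemma exists_param_one {A : Type*} [CommRing A] [IsLocalRing A] [IsNoetherianRing A]
    (hA : Ring.KrullDimLE 1 A) :
    ∃ y ∈ IsLocalRing.maximalIdeal A, ∀ P : Ideal A, P.IsPrime → y ∈ P → P.IsMaximal := by
  classical
  by_cases hmin : IsLocalRing.maximalIdeal A ∈ minimalPrimes A
  · refine ⟨0, Submodule.zero_mem _, fun P hP _ => ?_⟩
    have h1 : P ≤ IsLocalRing.maximalIdeal A := IsLocalRing.le_maximalIdeal hP.ne_top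
    have h2 : IsLocalRing.maximalIdeal A ≤ P := by
      rw [minimalPrimes_eq_minimals] at hmin
      exact hmin.2 hP h1
    rw [le_antisymm h1 h2]
    infer_instance
  · have hfin : (minimalPrimes A).Finite := minimalPrimes.finite_of_isNoetherianRing A
    have hav : ¬ ((IsLocalRing.maximalIdeal A : Set A) ⊆
        ⋃ i ∈ (↑hfin.toFinset : Set (Ideal A)), (i : Set A)) := by
      intro hsub
      rw [Ideal.subset_union_prime (f := fun i : Ideal A => i) ⊥ ⊥] at hsub
      · obtain ⟨P, hP, hle⟩ := hsub
        have hP' : P ∈ minimalPrimes A := by simpa using hP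
        have h1 : P.IsPrime := hP'.1.1
        have h2 : P = IsLocalRing.maximalIdeal A :=
          le_antisymm (IsLocalRing.le_maximalIdeal h1.ne_top) hle
        exact hmin (h2 ▸ hP')
      · intro P hP _ _
        have hP' : P ∈ minimalPrimes A := by simpa using hP
        exact hP'.1.1
    rw [Set.not_subset] at hav
    obtain ⟨y, hy, hy'⟩ := hav
    refine ⟨y, hy, fun P hP hyP => ?_⟩
    rcases (Ring.krullDimLE_one_iff.mp hA) P hP with h | h
    · exfalso
      apply hy'
      simp only [Set.mem_iUnion]
      exact ⟨P, by simpa using h, hyP⟩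
    · exact h

/-- A Noetherian local domain of dimension at most two has two elements generating an ideal of
finite colength. -/
lemma exists_params {R : Type*} [CommRing R] [IsDomain R] [IsLocalRing R] [IsNoetherianRing R]
    (h : ringKrullDim R ≤ 2) :
    ∃ x ∈ IsLocalRing.maximalIdeal R, ∃ y ∈ IsLocalRing.maximalIdeal R, ∃ n : ℕ,
      Module.length R (R ⧸ Ideal.span {x, y}) ≤ n := by
  classical
  -- it suffices to find x, y such that all primes containing both are maximal
  obtain ⟨x, hx, y, hy, hxy⟩ : ∃ x ∈ IsLocalRing.maximalIdeal R,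
      ∃ y ∈ IsLocalRing.maximalIdeal R,
        ∀ P : Ideal R, P.IsPrime → x ∈ P → y ∈ P → P.IsMaximal := by
    by_cases hbot : IsLocalRing.maximalIdeal R = ⊥
    · refine ⟨0, Submodule.zero_mem _, 0, Submodule.zero_mem _, fun P hP _ _ => ?_⟩
      have h1 : P ≤ IsLocalRing.maximalIdeal R := IsLocalRing.le_maximalIdeal hP.ne_top
      have h2 : P = IsLocalRing.maximalIdeal R := by
        rw [hbot] at h1 ⊢
        exact le_bot_iff.mp h1
      rw [h2]; infer_instance
    · obtain ⟨x, hx, hx0⟩ := Submodule.exists_mem_ne_zero_of_ne_bot hbot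
      have hne : Ideal.span {x} ≠ ⊤ := by
        intro htop
        have : Ideal.span {x} ≤ IsLocalRing.maximalIdeal R := by
          rw [Ideal.span_le, Set.singleton_subset_iff]; exact hx
        rw [htop, top_le_iff] at this
        exact (IsLocalRing.maximalIdeal.isMaximal R).ne_top this
      have : Nontrivial (R ⧸ Ideal.span {x}) := Ideal.Quotient.nontrivial_iff.mpr hne
      have hloc : IsLocalRing (R ⧸ Ideal.span {x}) :=
        IsLocalRing.of_surjective' (Ideal.Quotient.mk _) Ideal.Quotient.mk_surjective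
      have hdim : Ring.KrullDimLE 1 (R ⧸ Ideal.span {x}) := by
        rw [Ring.krullDimLE_iff]
        have h1 := ringKrullDim_quotient_succ_le_of_nonZeroDivisor
          (mem_nonZeroDivisors_of_ne_zero hx0)
        exact_mod_cast dim_aux _ (h1.trans h)
      obtain ⟨yb, hyb, hP⟩ := exists_param_one hdim
      obtain ⟨y, rfl⟩ := Ideal.Quotient.mk_surjective yb
      refine ⟨x, hx, y, ?_, ?_⟩
      · by_contra hcon
        have hu := IsLocalRing.notMem_maximalIdeal.mp hcon
        have := hu.map (Ideal.Quotient.mk (Ideal.span {x}))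
        exact (IsLocalRing.mem_maximalIdeal _).mp hyb this
      · intro P hPp hxP hyP
        have hxle : Ideal.span {x} ≤ P := by
          rw [Ideal.span_le, Set.singleton_subset_iff]; exact hxP
        have hker : RingHom.ker (Ideal.Quotient.mk (Ideal.span {x})) ≤ P := by
          rwa [Ideal.mk_ker]
        have hPm : (P.map (Ideal.Quotient.mk (Ideal.span {x}))).IsPrime :=
          Ideal.map_isPrime_of_surjective Ideal.Quotient.mk_surjective hker
        have hmax := hP _ hPm (Ideal.mem_map_of_mem _ hyP)
        have hcomap := Ideal.comap_map_of_surjective (Ideal.Quotient.mk (Ideal.span {x}))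
          Ideal.Quotient.mk_surjective P
        have h4 : (P.map (Ideal.Quotient.mk (Ideal.span {x}))).comap
            (Ideal.Quotient.mk (Ideal.span {x})) = P := by
          rw [hcomap, sup_eq_left]
          exact hker
        have := Ideal.comap_isMaximal_of_surjective (Ideal.Quotient.mk (Ideal.span {x}))
          Ideal.Quotient.mk_surjective (K := P.map (Ideal.Quotient.mk (Ideal.span {x})))
        rwa [h4] at this
  refine ⟨x, hx, y, hy, ?_⟩
  let B := R ⧸ Ideal.span {x, y}
  have hB0 : Ring.KrullDimLE 0 B := by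
    refine Ring.KrullDimLE.mk₀ fun I hI => ?_
    have h1 : (I.comap (Ideal.Quotient.mk (Ideal.span {x, y}))).IsPrime := Ideal.IsPrime.comap _
    have h2 : ∀ z ∈ Ideal.span {x, y}, z ∈ I.comap (Ideal.Quotient.mk (Ideal.span {x, y})) := by
      intro z hz
      rw [Ideal.mem_comap, Ideal.Quotient.eq_zero_iff_mem.mpr hz]
      exact Submodule.zero_mem _
    have h3 := hxy _ h1 (h2 x (Ideal.subset_span (by simp))) (h2 y (Ideal.subset_span (by simp)))
    have h4 : (I.comap (Ideal.Quotient.mk (Ideal.span {x, y}))).map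
        (Ideal.Quotient.mk (Ideal.span {x, y})) = I :=
      Ideal.map_comap_of_surjective _ Ideal.Quotient.mk_surjective I
    rcases Ideal.map_eq_top_or_isMaximal_of_surjective (Ideal.Quotient.mk (Ideal.span {x, y}))
      Ideal.Quotient.mk_surjective h3 with h5 | h5
    · rw [h4] at h5; exact absurd h5 hI.ne_top
    · rwa [h4] at h5
  have hart : IsArtinianRing B := isArtinianRing_iff_krullDimLE_zero.mpr hB0
  have hlen : Module.length R B ≠ ⊤ := by
    rw [Module.length_eq_of_surjective (R := B) (S := R) (M := B) Ideal.Quotient.mk_surjective]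
    exact Module.length_ne_top
  obtain ⟨n, hn⟩ := ENat.ne_top_iff_exists.mp hlen
  exact ⟨n, hn.symm.le⟩

end

end Pool.Agent.TH211.TP
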